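import Pool.Agent.Lib.MP_28303a_al.JK.Dep

/-! # Top forms of compositions -/

set_option autoImplicit false
set_option linter.unusedSectionVars false
set_option linter.unusedVariables false

namespace Pool.Agent.NegK.JK

universe u v

open MvPolynomial

section

variable {k : Type u} [Field k]

/-- Evaluation as a sum over a large enough set of monomials. -/
theorem aeval_sum {B : Type v} [CommRing B] [Algebra k B] (b : Fin 2 → B)
    (G : MvPolynomial (Fin 2) k) (s : Finset (Fin 2 →₀ ℕ)) (hs : ∀ d, coeff d G ≠ 0 → d ∈ s) :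
    aeval b G = ∑ d ∈ s, algebraMap k B (coeff d G) * (b 0 ^ d 0 * b 1 ^ d 1) := by
  rw [aeval_def, eval₂_eq']
  refine (Finset.sum_subset (fun d hd => hs d (mem_support_iff.1 hd)) fun d _ hd => ?_).trans
    (Finset.sum_congr rfl fun d _ => by rw [Fin.prod_univ_two])
  rw [notMem_support_iff.1 hd, map_zero, zero_mul]

variable (w : Fin 2 → ℕ) (P Q : MvPolynomial (Fin 2) k)

/-- The weights of the source. -/
noncomputable def wts : Fin 2 → ℕ := ![dg w P, dg w Q]

theorem wts_zero : wts w P Q 0 = dg w P := rfl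

theorem wts_one : wts w P Q 1 = dg w Q := rfl

theorem Hw_comp (F : MvPolynomial (Fin 2) k) : Hw w (aeval ![P, Q] F) =
    ∑ d ∈ F.support, Polynomial.C (C (coeff d F)) * (Hw w P ^ d 0 * Hw w Q ^ d 1) := by
  rw [aeval_sum ![P, Q] F F.support (fun d hd => mem_support_iff.2 hd), map_sum]
  refine Finset.sum_congr rfl fun d _ => ?_
  rw [map_mul, map_mul, map_pow, map_pow]
  congr 1
  exact (Hw w).commutes _

theorem nd_term (hP : P ≠ 0) (hQ : Q ≠ 0) (c : k) (d : Fin 2 →₀ ℕ) :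
    (Polynomial.C (C c) * (Hw w P ^ d 0 * Hw w Q ^ d 1)).natDegree ≤ wt (wts w P Q) d := by
  refine (Polynomial.natDegree_C_mul_le _ _).trans (Polynomial.natDegree_mul_le.trans ?_)
  rw [Polynomial.natDegree_pow, Polynomial.natDegree_pow]
  exact le_rfl

theorem co_term (hP : P ≠ 0) (hQ : Q ≠ 0) (c : k) (d : Fin 2 →₀ ℕ) :
    (Polynomial.C (C c) * (Hw w P ^ d 0 * Hw w Q ^ d 1)).coeff (wt (wts w P Q) d) =
      C c * (tp w P ^ d 0 * tp w Q ^ d 1) := by
  have h1 : (Hw w P ^ d 0 * Hw w Q ^ d 1).natDegree = wt (wts w P Q) d := by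
    rw [Polynomial.natDegree_mul (pow_ne_zero _ (Hw_ne w hP)) (pow_ne_zero _ (Hw_ne w hQ)),
      Polynomial.natDegree_pow, Polynomial.natDegree_pow]
    rfl
  rw [Polynomial.coeff_C_mul, ← h1, Polynomial.coeff_natDegree, Polynomial.leadingCoeff_mul,
    Polynomial.leadingCoeff_pow, Polynomial.leadingCoeff_pow]
  rfl

theorem comp_le (hP : P ≠ 0) (hQ : Q ≠ 0) (F : MvPolynomial (Fin 2) k) :
    dg w (aeval ![P, Q] F) ≤ dg (wts w P Q) F := by
  rw [dg, Hw_comp]
  refine Polynomial.natDegree_sum_le_of_forall_le _ _ fun d hd => ?_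
  exact (nd_term w P Q hP hQ _ d).trans (wt_le _ (mem_support_iff.1 hd))

theorem comp_top (hP : P ≠ 0) (hQ : Q ≠ 0) (F : MvPolynomial (Fin 2) k) :
    (Hw w (aeval ![P, Q] F)).coeff (dg (wts w P Q) F) =
      aeval ![tp w P, tp w Q] (tp (wts w P Q) F) := by
  have hco : ∀ d, coeff d (tp (wts w P Q) F) =
      if wt (wts w P Q) d = dg (wts w P Q) F then coeff d F else 0 := by
    intro d
    rw [tp, Polynomial.leadingCoeff, coeff_Hw]
    rfl
  rw [Hw_comp, Polynomial.finsetSum_coeff, aeval_sum ![tp w P, tp w Q] (tp (wts w P Q) F) F.support]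
  · refine Finset.sum_congr rfl fun d hd => ?_
    rw [hco]
    by_cases h1 : wt (wts w P Q) d = dg (wts w P Q) F
    · rw [if_pos h1, ← h1, co_term w P Q hP hQ]
      rfl
    · rw [if_neg h1, map_zero (algebraMap k (MvPolynomial (Fin 2) k)), zero_mul]
      refine Polynomial.coeff_eq_zero_of_natDegree_lt (lt_of_le_of_lt (nd_term w P Q hP hQ _ d) ?_)
      exact lt_of_le_of_ne (wt_le _ (mem_support_iff.1 hd)) h1
  · intro d hd
    rw [hco] at hd
    rw [mem_support_iff]
    intro h0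
    rw [h0] at hd
    split_ifs at hd <;> exact hd rfl

end

section

variable {k Ω : Type u} [Field k] [IsAlgClosed k] [Field Ω] [Algebra k Ω]
  (ι : MvPolynomial (Fin 2) k →ₐ[k] Ω) (hι : Function.Injective ι) (w : Fin 2 → ℕ) (θ : Ω)
  (P Q : MvPolynomial (Fin 2) k) (he : 0 < dg w P) (hP : ι (tp w P) = θ ^ dg w P)

include hP in
theorem aeval_top (F : MvPolynomial (Fin 2) k) (κ : Ω) (hκ : ι (tp w Q) = κ * θ ^ dg w Q) :
    ι (aeval ![tp w P, tp w Q] (tp (wts w P Q) F)) =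
      θ ^ dg (wts w P Q) F * aeval ![1, κ] (tp (wts w P Q) F) := by
  rw [← (tp_isH (wts w P Q) F).aeval_mul, comp_aeval_apply]
  congr 2
  funext i
  fin_cases i
  · show ι (tp w P) = 1 * θ ^ dg w P
    rw [hP, one_mul]
  · exact hκ

include hι he hP in
theorem theta_ne : P ≠ 0 ∧ θ ≠ 0 := by
  have hP0 : P ≠ 0 := by
    rintro rfl
    rw [dg, map_zero, Polynomial.natDegree_zero] at he
    exact lt_irrefl _ he
  refine ⟨hP0, ?_⟩
  rintro rfl
  rw [zero_pow he.ne'] at hP
  exact tp_ne w hP0 (hι (hP.trans (map_zero ι).symm))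

include hι he hP in
/-- If the top forms are independent there is no cancellation. -/
theorem indep (hQ : Q ≠ 0) (hD : ¬ InD ι w θ Q) (F : MvPolynomial (Fin 2) k) (hF : F ≠ 0) :
    dg w (aeval ![P, Q] F) = dg (wts w P Q) F := by
  obtain ⟨hP0, hθ⟩ := theta_ne ι hι w θ P he hP
  refine le_antisymm (comp_le w P Q hP0 hQ F) (Polynomial.le_natDegree_of_ne_zero ?_)
  rw [comp_top w P Q hP0 hQ]
  intro h0
  obtain ⟨κ, hκd⟩ : ∃ κ, ι (tp w Q) / θ ^ dg w Q = κ := ⟨_, rfl⟩
  have hκ : ι (tp w Q) = κ * θ ^ dg w Q := by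
    rw [← hκd, div_mul_cancel₀ _ (pow_ne_zero _ hθ)]
  have h1 := aeval_top ι w θ P Q hP F κ hκ
  rw [h0, map_zero] at h1
  have h2 : aeval ![1, κ] (tp (wts w P Q) F) = 0 :=
    (mul_eq_zero.1 h1.symm).resolve_left (pow_ne_zero _ hθ)
  have h3 : Polynomial.aeval κ (aeval ![1, (Polynomial.X : Polynomial k)] (tp (wts w P Q) F)) =
      0 := by
    rw [← h2, comp_aeval_apply]
    congr 2
    funext i
    fin_cases i
    · exact map_one _
    · exact Polynomial.aeval_X _
  obtain ⟨c, hc⟩ := mem_of_alg κ _ ((tp_isH (wts w P Q) F).line_ne (tp_ne _ hF) he) h3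
  apply hD
  refine ⟨c, ?_, by rw [hc, hκ]⟩
  rintro rfl
  rw [map_zero] at hc
  rw [← hc, zero_mul] at hκ
  exact tp_ne w hQ (hι (hκ.trans (map_zero ι).symm))

include hι he hP in
/-- If there is cancellation then the top form vanishes. -/
theorem dep_van (hQ : Q ≠ 0) (ε : k) (hε : ι (tp w Q) = algebraMap k Ω ε * θ ^ dg w Q)
    (F : MvPolynomial (Fin 2) k) (hlt : dg w (aeval ![P, Q] F) < dg (wts w P Q) F) :
    aeval ![1, ε] (tp (wts w P Q) F) = 0 := by
  obtain ⟨hP0, hθ⟩ := theta_ne ι hι w θ P he hP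
  have h0 : aeval ![tp w P, tp w Q] (tp (wts w P Q) F) = 0 := by
    rw [← comp_top w P Q hP0 hQ]
    exact Polynomial.coeff_eq_zero_of_natDegree_lt hlt
  have h1 := aeval_top ι w θ P Q hP F _ hε
  rw [h0, map_zero] at h1
  have h2 : aeval ![1, algebraMap k Ω ε] (tp (wts w P Q) F) = 0 :=
    (mul_eq_zero.1 h1.symm).resolve_left (pow_ne_zero _ hθ)
  apply (algebraMap k Ω).injective
  rw [map_zero, ← h2]
  have h3 : algebraMap k Ω (aeval ![1, ε] (tp (wts w P Q) F)) =
      Algebra.ofId k Ω (aeval ![1, ε] (tp (wts w P Q) F)) := rfl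
  rw [h3, comp_aeval_apply]
  congr 2
  funext i
  fin_cases i
  · exact map_one _
  · rfl

end

end Pool.Agent.NegK.JK
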