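import Mathlib

/-! # Embedded lines `γ a ^ m - b ^ n = c` -/

set_option autoImplicit false

namespace Pool.Agent.NegK.JK

universe u

open Polynomial

variable {k : Type u} [Field k]

theorem deriv_mem (a b : k[X]) (G : MvPolynomial (Fin 2) k) :
    ∃ u v : k[X], derivative (MvPolynomial.aeval ![a, b] G) =
      u * derivative a + v * derivative b := by
  induction G using MvPolynomial.induction_on with
  | C c =>
    refine ⟨0, 0, ?_⟩
    rw [MvPolynomial.aeval_C, algebraMap_eq, derivative_C, zero_mul, zero_mul, add_zero]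
  | add p q hp hq =>
    obtain ⟨u, v, h⟩ := hp
    obtain ⟨u', v', h'⟩ := hq
    exact ⟨u + u', v + v', by rw [map_add, derivative_add, h, h']; ring⟩
  | mul_X p i hp =>
    obtain ⟨u, v, h⟩ := hp
    rw [map_mul, MvPolynomial.aeval_X, derivative_mul, h]
    fin_cases i
    · exact ⟨u * a + MvPolynomial.aeval ![a, b] p, v * a, by
        show (u * derivative a + v * derivative b) * a + MvPolynomial.aeval ![a, b] p *
          derivative a = _
        ring⟩
    · exact ⟨u * b, v * b + MvPolynomial.aeval ![a, b] p, by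
        show (u * derivative a + v * derivative b) * b + MvPolynomial.aeval ![a, b] p *
          derivative b = _
        ring⟩

theorem deriv_eq (a b : k[X]) (m n : ℕ) (γ c : k) (h : C γ * a ^ m - b ^ n = C c) :
    C (γ * m) * a ^ (m - 1) * derivative a = C (n : k) * b ^ (n - 1) * derivative b := by
  have h1 := congrArg derivative h
  rw [derivative_sub, derivative_C_mul, derivative_pow, derivative_pow, derivative_C,
    sub_eq_zero] at h1
  rw [← h1, C_mul]
  ring

/-- The case that the characteristic divides the exponent `m`. -/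
theorem caseA [IsAlgClosed k] (a b : k[X]) (m n : ℕ) (hm : 0 < m) (hn : 2 ≤ n)
    (hcop : Nat.Coprime m n) (γ c : k) (hγ : γ ≠ 0) (hc : c ≠ 0)
    (h : C γ * a ^ m - b ^ n = C c) (hJ : ∃ u v : k[X], u * derivative a + v * derivative b = 1)
    (hb : 0 < b.natDegree) (h0 : (m : k) = 0) (h1 : (n : k) ≠ 0) : False := by
  obtain ⟨p, hp⟩ := CharP.exists k
  have hpm : p ∣ m := (CharP.cast_eq_zero_iff k p m).1 h0
  have hp0 : p ≠ 0 := by
    rintro rfl
    exact hm.ne' (zero_dvd_iff.1 hpm)
  have hpp : p.Prime := (CharP.char_is_prime_or_zero k p).resolve_right hp0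
  have := Fact.mk hpp
  have hb0 : b ≠ 0 := by
    rintro rfl
    rw [natDegree_zero] at hb
    exact lt_irrefl _ hb
  have hb' : derivative b = 0 := by
    have h2 := deriv_eq a b m n γ c h
    rw [h0, mul_zero, C_0, zero_mul, zero_mul] at h2
    rcases mul_eq_zero.1 h2.symm with h3 | h3
    · rcases mul_eq_zero.1 h3 with h4 | h4
      · exact absurd (C_eq_zero.1 h4) h1
      · exact absurd h4 (pow_ne_zero _ hb0)
    · exact h3
  obtain ⟨u, v, hJ⟩ := hJ
  rw [hb', mul_zero, add_zero] at hJ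
  obtain ⟨t, ht⟩ := IsAlgClosed.exists_root b (by
    rw [degree_eq_natDegree hb0]
    exact_mod_cast hb.ne')
  have ht : b.eval t = 0 := ht
  have hat : γ * a.eval t ^ m = c := by
    have h2 := congrArg (eval t) h
    rw [eval_sub, eval_mul, eval_pow, eval_pow, eval_C, eval_C, ht, zero_pow (by omega),
      sub_zero] at h2
    exact h2
  have hat0 : a.eval t ≠ 0 := by
    intro h2
    rw [h2, zero_pow hm.ne', mul_zero] at hat
    exact hc hat.symm
  have ha't : (derivative a).eval t ≠ 0 := by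
    intro h2
    have h3 := congrArg (eval t) hJ
    rw [eval_mul, h2, mul_zero, eval_one] at h3
    exact zero_ne_one h3
  obtain ⟨s, m', hm', rfl⟩ := Nat.exists_eq_pow_mul_and_not_dvd hm.ne' p hpp.ne_one
  obtain ⟨c₁, hc₁⟩ := IsAlgClosed.exists_pow_nat_eq (c / γ) (pow_pos hpp.pos s)
  have hδ : C γ * (a ^ m' - C c₁) ^ p ^ s = b ^ n := by
    rw [sub_pow_char_pow, ← pow_mul, ← C_pow, hc₁, mul_sub, ← C_mul, mul_div_cancel₀ _ hγ,
      ← h, mul_comm m']
    ring
  have hδt : (a ^ m' - C c₁).eval t = 0 := by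
    have h2 := congrArg (eval t) hδ
    rw [eval_mul, eval_pow, eval_pow, eval_C, ht, zero_pow (by omega : n ≠ 0)] at h2
    exact eq_zero_of_pow_eq_zero ((mul_eq_zero.1 h2).resolve_left hγ)
  have hδ0 : (a ^ m' - C c₁) ≠ 0 := by
    intro h2
    rw [h2, zero_pow (pow_pos hpp.pos s).ne', mul_zero] at hδ
    exact pow_ne_zero n hb0 hδ.symm
  have hmk : (m' : k) ≠ 0 := fun h2 => hm' ((CharP.cast_eq_zero_iff k p m').1 h2)
  have hδ' : (derivative (a ^ m' - C c₁)).eval t ≠ 0 := by
    rw [derivative_sub, derivative_C, sub_zero, derivative_pow, eval_mul, eval_mul, eval_C,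
      eval_pow]
    exact mul_ne_zero (mul_ne_zero hmk (pow_ne_zero _ hat0)) ha't
  have hmu : (a ^ m' - C c₁).rootMultiplicity t = 1 := by
    have h2 : ¬ 1 < (a ^ m' - C c₁).rootMultiplicity t := by
      rw [one_lt_rootMultiplicity_iff_isRoot hδ0]
      exact fun h3 => hδ' h3.2
    have h3 : 0 < (a ^ m' - C c₁).rootMultiplicity t := (rootMultiplicity_pos hδ0).2 hδt
    omega
  have hpow : ∀ (f : k[X]) (j : ℕ), f ≠ 0 →
      (f ^ j).rootMultiplicity t = j * f.rootMultiplicity t := by
    intro f j hf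
    classical
    rw [← count_roots, roots_pow, Multiset.count_nsmul, count_roots]
  have h2 : (C γ * (a ^ m' - C c₁) ^ p ^ s).rootMultiplicity t = p ^ s := by
    rw [rootMultiplicity_mul (mul_ne_zero (C_ne_zero.2 hγ) (pow_ne_zero _ hδ0)),
      rootMultiplicity_C, zero_add, hpow _ _ hδ0, hmu, mul_one]
  rw [hδ, hpow _ _ hb0] at h2
  have h3 : n ∣ p ^ s := ⟨_, h2.symm⟩
  have h4 : Nat.Coprime (p ^ s) n := Nat.Coprime.coprime_dvd_left (dvd_mul_right _ _) hcop
  have h5 : n = 1 := Nat.Coprime.eq_one_of_dvd h4.symm h3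
  omega

/-- An embedded line `γ a ^ m - b ^ n = c` with `m`, `n` coprime and `c ≠ 0` has `m = 1` or
`n = 1`. -/
theorem curve [IsAlgClosed k] (a b : k[X]) (m n : ℕ) (hm : 2 ≤ m) (hn : 2 ≤ n)
    (hcop : Nat.Coprime m n) (γ c : k) (hγ : γ ≠ 0) (hc : c ≠ 0)
    (h : C γ * a ^ m - b ^ n = C c)
    (hgen : ∃ G : MvPolynomial (Fin 2) k, MvPolynomial.aeval ![a, b] G = X) : False := by
  have hJ : ∃ u v : k[X], u * derivative a + v * derivative b = 1 := by
    obtain ⟨G, hG⟩ := hgen
    obtain ⟨u, v, h1⟩ := deriv_mem a b G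
    rw [hG, derivative_X] at h1
    exact ⟨u, v, h1.symm⟩
  have hγC : C γ ≠ 0 := C_ne_zero.2 hγ
  have hab : 0 < a.natDegree ∧ 0 < b.natDegree := by
    have e1 : C γ * a ^ m = b ^ n + C c := by rw [← h]; ring
    have e2 : b ^ n = C γ * a ^ m - C c := by rw [← h]; ring
    have d1 : (C γ * a ^ m).natDegree = m * a.natDegree := by
      rw [natDegree_C_mul hγ, natDegree_pow]
    have d2 : (b ^ n + C c).natDegree = n * b.natDegree := by
      rw [natDegree_add_C, natDegree_pow]
    have d3 : m * a.natDegree = n * b.natDegree := by rw [← d1, e1, d2]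
    by_contra hcon
    have hz : a.natDegree = 0 ∧ b.natDegree = 0 := by
      rcases Nat.eq_zero_or_pos a.natDegree with h1 | h1
      · refine ⟨h1, ?_⟩
        rw [h1, mul_zero] at d3
        rcases Nat.mul_eq_zero.1 d3.symm with h2 | h2
        · omega
        · exact h2
      · rcases Nat.eq_zero_or_pos b.natDegree with h2 | h2
        · refine ⟨?_, h2⟩
          rw [h2, mul_zero] at d3
          rcases Nat.mul_eq_zero.1 d3 with h3 | h3
          · omega
          · exact h3
        · exact absurd ⟨h1, h2⟩ hcon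
    obtain ⟨u, v, hJ⟩ := hJ
    rw [eq_C_of_natDegree_eq_zero hz.1, eq_C_of_natDegree_eq_zero hz.2, derivative_C,
      derivative_C, mul_zero, mul_zero, add_zero] at hJ
    exact zero_ne_one hJ
  obtain ⟨p, hp⟩ := CharP.exists k
  by_cases hmk : (m : k) = 0
  · by_cases hnk : (n : k) = 0
    · have h1 : p ∣ m := (CharP.cast_eq_zero_iff k p m).1 hmk
      have h2 : p ∣ n := (CharP.cast_eq_zero_iff k p n).1 hnk
      have h3 : p = 1 := Nat.eq_one_of_dvd_coprimes hcop h1 h2
      exact CharP.char_ne_one k p h3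
    · exact caseA a b m n (by omega) hn hcop γ c hγ hc h hJ hab.2 hmk hnk
  by_cases hnk : (n : k) = 0
  · refine caseA b a n m (by omega) hm hcop.symm γ⁻¹ (-(c * γ⁻¹)) (inv_ne_zero hγ)
      (neg_ne_zero.2 (mul_ne_zero hc (inv_ne_zero hγ))) ?_ ?_ hab.1 hnk hmk
    · have e2 : b ^ n = C γ * a ^ m - C c := by rw [← h]; ring
      have e3 : C γ⁻¹ * C γ = (1 : k[X]) := by rw [← C_mul, inv_mul_cancel₀ hγ, C_1]
      rw [e2, mul_sub, ← mul_assoc, e3, C_neg, C_mul]
      ring
    · obtain ⟨u, v, hJ⟩ := hJ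
      exact ⟨v, u, by rw [← hJ]; ring⟩
  -- both exponents are prime to the characteristic
  have hD := deriv_eq a b m n γ c h
  have ha0 : a ≠ 0 := by
    rintro rfl
    rw [natDegree_zero] at hab
    exact lt_irrefl _ hab.1
  have hb0 : b ≠ 0 := by
    rintro rfl
    rw [natDegree_zero] at hab
    exact lt_irrefl _ hab.2
  have hcab : IsCoprime a b := by
    have h1 : IsCoprime (a ^ m) (b ^ n) := by
      refine ⟨C c⁻¹ * C γ, -C c⁻¹, ?_⟩
      have e3 : C c⁻¹ * C c = (1 : k[X]) := by rw [← C_mul, inv_mul_cancel₀ hc, C_1]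
      rw [← e3, ← h]
      ring
    exact (IsCoprime.pow_iff (by omega) (by omega)).1 h1
  have ha' : derivative a ≠ 0 := by
    intro h1
    rw [h1, mul_zero] at hD
    rcases mul_eq_zero.1 hD.symm with h2 | h2
    · rcases mul_eq_zero.1 h2 with h3 | h3
      · exact hnk (C_eq_zero.1 h3)
      · exact pow_ne_zero _ hb0 h3
    · obtain ⟨u, v, hJ⟩ := hJ
      rw [h1, h2, mul_zero, mul_zero, add_zero] at hJ
      exact zero_ne_one hJ
  have hb' : derivative b ≠ 0 := by
    intro h1
    rw [h1, mul_zero] at hD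
    rcases mul_eq_zero.1 hD with h2 | h2
    · rcases mul_eq_zero.1 h2 with h3 | h3
      · exact mul_ne_zero hγ hmk (C_eq_zero.1 h3)
      · exact pow_ne_zero _ ha0 h3
    · exact ha' h2
  have hu1 : IsUnit (C (n : k)) := isUnit_C.2 (isUnit_iff_ne_zero.2 hnk)
  have hu2 : IsUnit (C (γ * m)) := isUnit_C.2 (isUnit_iff_ne_zero.2 (mul_ne_zero hγ hmk))
  have dv1 : a ^ (m - 1) ∣ derivative b := by
    have h1 : a ^ (m - 1) ∣ C (n : k) * b ^ (n - 1) * derivative b := by
      rw [← hD]
      exact ⟨C (γ * m) * derivative a, by ring⟩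
    rw [mul_assoc, hu1.dvd_mul_left] at h1
    exact (hcab.pow (m := m - 1) (n := n - 1)).dvd_of_dvd_mul_left h1
  have dv2 : b ^ (n - 1) ∣ derivative a := by
    have h1 : b ^ (n - 1) ∣ C (γ * m) * a ^ (m - 1) * derivative a := by
      rw [hD]
      exact ⟨C (n : k) * derivative b, by ring⟩
    rw [mul_assoc, hu2.dvd_mul_left] at h1
    exact (hcab.symm.pow (m := n - 1) (n := m - 1)).dvd_of_dvd_mul_left h1
  have l1 := natDegree_le_of_dvd dv1 hb'
  have l2 := natDegree_le_of_dvd dv2 ha'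
  rw [natDegree_pow] at l1 l2
  have l3 := natDegree_derivative_lt hab.1.ne'
  have l4 := natDegree_derivative_lt hab.2.ne'
  have l5 : a.natDegree ≤ (m - 1) * a.natDegree := Nat.le_mul_of_pos_left _ (by omega)
  have l6 : b.natDegree ≤ (n - 1) * b.natDegree := Nat.le_mul_of_pos_left _ (by omega)
  omega

end Pool.Agent.NegK.JK
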