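import Pool.Agent.Lib.MP_28303a_al.JK.Comp
import Pool.Agent.Lib.MP_28303a_al.JK.Curve

/-! # Homogeneous polynomials which vanish at `(1, ε)` -/

set_option autoImplicit false
set_option linter.unusedSectionVars false
set_option linter.unusedVariables false

namespace Pool.Agent.NegK.JK

universe u v

open MvPolynomial

variable {k : Type u} [Field k]

theorem hom_van (e' f' g : ℕ) (hg : 0 < g) (he' : 0 < e') (hcop : Nat.Coprime e' f')
    {w : Fin 2 → ℕ} (hw0 : w 0 = g * e') (hw1 : w 1 = g * f') {N : ℕ}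
    {R : MvPolynomial (Fin 2) k} (hR : IsH w N R) (ε : k) (hε : ε ≠ 0)
    (h0 : aeval ![1, ε] R = 0) {B : Type v} [CommRing B] [Algebra k B] (b : Fin 2 → B)
    (huv : b 1 ^ e' = algebraMap k B (ε ^ e') * b 0 ^ f') : aeval b R = 0 := by
  by_cases hR0 : R = 0
  · rw [hR0, map_zero]
  have hne : R.support.Nonempty := by
    rw [Finset.nonempty_iff_ne_empty]
    intro h
    exact hR0 (support_eq_empty.1 h)
  obtain ⟨δ, hδ, hmin⟩ := Finset.exists_min_image R.support (fun d => d 1) hne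
  have hterm : ∀ d ∈ R.support, b 0 ^ d 0 * b 1 ^ d 1 * algebraMap k B (ε ^ δ 1) =
      algebraMap k B (ε ^ d 1) * (b 0 ^ δ 0 * b 1 ^ δ 1) := by
    intro d hd
    have h1 : d 0 * (g * e') + d 1 * (g * f') = δ 0 * (g * e') + δ 1 * (g * f') := by
      have e1 := hR d (mem_support_iff.1 hd)
      have e2 := hR δ (mem_support_iff.1 hδ)
      rw [wt, hw0, hw1] at e1 e2
      rw [e1, e2]
    have h2 : d 0 * e' + d 1 * f' = δ 0 * e' + δ 1 * f' := by
      refine Nat.eq_of_mul_eq_mul_left hg ?_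
      calc g * (d 0 * e' + d 1 * f') = d 0 * (g * e') + d 1 * (g * f') := by ring
        _ = _ := h1
        _ = g * (δ 0 * e' + δ 1 * f') := by ring
    obtain ⟨t, ht⟩ := Nat.exists_eq_add_of_le (hmin d hd)
    have ht' : d 1 = δ 1 + t := ht
    have h3 : d 0 * e' + t * f' = δ 0 * e' := by
      rw [ht', add_mul] at h2
      omega
    have h4 : e' ∣ t * f' := by
      have h5 : e' ∣ d 0 * e' + t * f' := by
        rw [h3]
        exact dvd_mul_left _ _
      exact (Nat.dvd_add_right (dvd_mul_left e' (d 0))).1 h5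
    obtain ⟨j, rfl⟩ := hcop.dvd_of_dvd_mul_right h4
    have h5 : d 0 + j * f' = δ 0 := by
      refine Nat.eq_of_mul_eq_mul_right he' ?_
      rw [← h3]
      ring
    have h6 : b 1 ^ d 1 = b 1 ^ δ 1 * (algebraMap k B (ε ^ (e' * j)) * b 0 ^ (j * f')) := by
      rw [ht', pow_add, pow_mul (b 1), huv, mul_pow, ← map_pow, ← pow_mul, ← pow_mul,
        mul_comm f' j]
    rw [h6, ← h5, ht', pow_add (b 0), pow_add ε, map_mul]
    ring
  have hsum : aeval b R * algebraMap k B (ε ^ δ 1) = 0 := by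
    have e1 := aeval_sum b R R.support (fun d hd => mem_support_iff.2 hd)
    have e2 := aeval_sum (B := k) ![1, ε] R R.support (fun d hd => mem_support_iff.2 hd)
    have e3 : algebraMap k B (aeval ![1, ε] R) = ∑ d ∈ R.support,
        algebraMap k B (coeff d R) * algebraMap k B (ε ^ d 1) := by
      rw [e2, map_sum]
      refine Finset.sum_congr rfl fun d _ => ?_
      rw [Matrix.cons_val_zero, Matrix.cons_val_one, Matrix.cons_val_fin_one, one_pow, one_mul,
        map_mul, Algebra.algebraMap_self_apply]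
    calc aeval b R * algebraMap k B (ε ^ δ 1) = ∑ d ∈ R.support, algebraMap k B (coeff d R) *
          algebraMap k B (ε ^ d 1) * (b 0 ^ δ 0 * b 1 ^ δ 1) := by
          rw [e1, Finset.sum_mul]
          refine Finset.sum_congr rfl fun d hd => ?_
          rw [mul_assoc, hterm d hd]
          ring
      _ = algebraMap k B (aeval ![1, ε] R) * (b 0 ^ δ 0 * b 1 ^ δ 1) := by
          rw [e3, Finset.sum_mul]
      _ = 0 := by rw [h0, map_zero, zero_mul]
  have hu : IsUnit (algebraMap k B (ε ^ δ 1)) :=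
    (isUnit_iff_ne_zero.2 (pow_ne_zero _ hε)).map (algebraMap k B)
  exact (hu.mul_left_eq_zero).1 hsum

/-- The curve in the line. -/
theorem unit_of (e' f' g : ℕ) (hg : 0 < g) (he' : 0 < e') (hcop : Nat.Coprime e' f')
    {w : Fin 2 → ℕ} (hw0 : w 0 = g * e') (hw1 : w 1 = g * f') {N : ℕ}
    {R : MvPolynomial (Fin 2) k} (hR : IsH w N R) (ε : k) (hε : ε ≠ 0)
    (h0 : aeval ![1, ε] R = 0) (p : Fin 2 → Polynomial k) (hp : aeval p R = 1) :
    ∃ c : k, c ≠ 0 ∧ Polynomial.C (ε ^ e') * p 0 ^ f' - p 1 ^ e' = Polynomial.C c := by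
  let h : Polynomial k := Polynomial.C (ε ^ e') * p 0 ^ f' - p 1 ^ e'
  let I : Ideal (Polynomial k) := Ideal.span {h}
  let π : Polynomial k →ₐ[k] Polynomial k ⧸ I := Ideal.Quotient.mkₐ k I
  have hπ : π h = 0 := Ideal.Quotient.eq_zero_iff_mem.2 (Ideal.mem_span_singleton_self h)
  have hb : (π (p 1)) ^ e' = algebraMap k _ (ε ^ e') * (π (p 0)) ^ f' := by
    have h1 : π h = π (Polynomial.C (ε ^ e')) * (π (p 0)) ^ f' - (π (p 1)) ^ e' := by
      simp only [h, map_sub, map_mul, map_pow]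
    rw [hπ] at h1
    have h2 : π (Polynomial.C (ε ^ e')) = algebraMap k _ (ε ^ e') := π.commutes _
    rw [← h2]
    exact (sub_eq_zero.1 h1.symm).symm
  have h1 := hom_van e' f' g hg he' hcop hw0 hw1 hR ε hε h0 (fun i => π (p i)) hb
  rw [← comp_aeval_apply, hp, map_one] at h1
  have h2 : (1 : Polynomial k) ∈ I := by
    have h3 : π 1 = 0 := by rw [map_one, h1]
    exact Ideal.Quotient.eq_zero_iff_mem.1 h3
  have h3 : IsUnit h := isUnit_of_dvd_one (Ideal.mem_span_singleton.1 h2)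
  obtain ⟨c, hc, hc'⟩ := Polynomial.isUnit_iff.1 h3
  exact ⟨c, hc.ne_zero, hc'.symm⟩

end Pool.Agent.NegK.JK
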