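import Pool.Agent.Lib.MP_28303a_al.JK.L1
import Pool.Agent.Lib.MP_28303a_al.JK.Div

/-! # The top forms of generators: algebraically closed fields -/

set_option autoImplicit false
set_option linter.unusedSectionVars false
set_option linter.unusedVariables false

namespace Pool.Agent.NegK.JK

universe u v

open MvPolynomial

/-- The weights of the ordinary degree. -/
def o : Fin 2 → ℕ := fun _ => 1

theorem wt_o (d : Fin 2 →₀ ℕ) : wt o d = d 0 + d 1 := by
  rw [wt]
  show d 0 * 1 + d 1 * 1 = _
  rw [mul_one, mul_one]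

variable {k : Type u} [Field k]

theorem dg_X (i : Fin 2) : dg o (X i : MvPolynomial (Fin 2) k) = 1 :=
  (isH_X o i).dg_eq o (X_ne_zero i)

theorem dg_pos {P R S : MvPolynomial (Fin 2) k} {i : Fin 2} (h : aeval ![R, S] P = X i) :
    0 < dg o P := by
  rw [Nat.pos_iff_ne_zero]
  intro h0
  have h1 : P = C (coeff 0 P) := by
    refine MvPolynomial.ext _ _ fun d => ?_
    rw [coeff_C]
    by_cases hd : 0 = d
    · rw [if_pos hd, hd]
    · rw [if_neg hd]
      by_contra hne
      have h2 := wt_le o hne
      rw [h0, wt_o] at h2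
      apply hd
      ext i
      fin_cases i
      · show 0 = d 0
        omega
      · show 0 = d 1
        omega
  rw [h1, aeval_C] at h
  have h2 := congrArg totalDegree h
  rw [totalDegree_X] at h2
  have h3 : totalDegree ((algebraMap k (MvPolynomial (Fin 2) k)) (coeff 0 P)) = 0 :=
    totalDegree_C _
  rw [h3] at h2
  exact zero_ne_one h2

/-- A variable occurs. -/
theorem var_occurs {R S P : MvPolynomial (Fin 2) k} (i : Fin 2) (h : aeval ![R, S] P = X i) :
    (∃ d, coeff d R ≠ 0 ∧ d i ≠ 0) ∨ (∃ d, coeff d S ≠ 0 ∧ d i ≠ 0) := by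
  classical
  by_contra hcon
  rw [not_or] at hcon
  let σ : MvPolynomial (Fin 2) k →ₐ[k] MvPolynomial (Fin 2) k := aeval (Function.update X i 0)
  have key : ∀ G : MvPolynomial (Fin 2) k, (¬ ∃ d, coeff d G ≠ 0 ∧ d i ≠ 0) → σ G = G := by
    intro G hG
    have h1 : (σ : MvPolynomial (Fin 2) k →+* MvPolynomial (Fin 2) k) G =
        (RingHom.id (MvPolynomial (Fin 2) k)) G := by
      refine hom_congr_vars ?_ ?_ rfl
      · refine RingHom.ext fun c => ?_
        show σ (C c) = C c
        exact σ.commutes c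
      · intro j hj _
        have hji : j ≠ i := by
          rintro rfl
          obtain ⟨d, hd, hd'⟩ := (mem_vars_iff_mem_support j).1 hj
          exact hG ⟨d, mem_support_iff.1 hd, Finsupp.mem_support_iff.1 hd'⟩
        show σ (X j) = X j
        rw [aeval_X, Function.update_of_ne hji]
    exact h1
  have h1 := congrArg σ h
  rw [comp_aeval_apply] at h1
  have h2 : (fun j => σ (![R, S] j)) = ![R, S] := by
    funext j
    fin_cases j
    · exact key R hcon.1
    · exact key S hcon.2
  rw [h2, h, aeval_X, Function.update_self] at h1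
  exact X_ne_zero i h1

variable [IsAlgClosed k]

/-- The relation of the top forms of a pair of generators. -/
theorem core (P Q R S : MvPolynomial (Fin 2) k) (h1 : aeval ![P, Q] R = X 0)
    (h2 : aeval ![P, Q] S = X 1) (h3 : aeval ![R, S] P = X 0) (h4 : aeval ![R, S] Q = X 1) :
    (dg o P = 1 ∧ dg o Q = 1 ∧ dg o R = 1 ∧ dg o S = 1) ∨
      (∃ s : ℕ, ∃ ε : k, 1 ≤ s ∧ tp o Q = C ε * tp o P ^ s) ∨
      (∃ s : ℕ, ∃ ε : k, 1 ≤ s ∧ tp o P = C ε * tp o Q ^ s) := by
  have he := dg_pos h3
  have hf := dg_pos h4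
  have hR1 := dg_pos h1
  have hS1 := dg_pos h2
  have hne : ∀ F : MvPolynomial (Fin 2) k, 0 < dg o F → F ≠ 0 := by
    rintro F hF rfl
    rw [dg, map_zero, Polynomial.natDegree_zero] at hF
    exact lt_irrefl _ hF
  have hP0 := hne P he
  have hQ0 := hne Q hf
  have hR0 := hne R hR1
  have hS0 := hne S hS1
  let Ω := AlgebraicClosure (FractionRing (MvPolynomial (Fin 2) k))
  let ι : MvPolynomial (Fin 2) k →ₐ[k] Ω :=
    IsScalarTower.toAlgHom k (MvPolynomial (Fin 2) k) Ω
  have hι : Function.Injective ι := by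
    intro x y hxy
    have h5 : algebraMap (MvPolynomial (Fin 2) k) Ω x = algebraMap (MvPolynomial (Fin 2) k) Ω y :=
      hxy
    rw [IsScalarTower.algebraMap_apply (MvPolynomial (Fin 2) k)
      (FractionRing (MvPolynomial (Fin 2) k)) Ω, IsScalarTower.algebraMap_apply
      (MvPolynomial (Fin 2) k) (FractionRing (MvPolynomial (Fin 2) k)) Ω] at h5
    exact IsFractionRing.injective (MvPolynomial (Fin 2) k) _
      ((algebraMap (FractionRing (MvPolynomial (Fin 2) k)) Ω).injective h5)
  obtain ⟨θ, hθ⟩ := IsAlgClosed.exists_pow_nat_eq (ι (tp o P)) he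
  by_cases hD : InD ι o θ Q
  · right
    obtain ⟨ε, hε, hQε⟩ := hD
    -- divisibility suffices
    have d1 : dg o P ∣ dg o Q → ∃ s : ℕ, ∃ ε : k, 1 ≤ s ∧ tp o Q = C ε * tp o P ^ s := by
      rintro ⟨s, hs⟩
      refine ⟨s, ε, ?_, ?_⟩
      · rw [Nat.one_le_iff_ne_zero]
        rintro rfl
        rw [mul_zero] at hs
        omega
      · apply hι
        rw [hQε, map_mul, map_pow, ← hθ, ← pow_mul, ← hs]
        rfl
    have d2 : dg o Q ∣ dg o P → ∃ s : ℕ, ∃ ε : k, 1 ≤ s ∧ tp o P = C ε * tp o Q ^ s := by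
      rintro ⟨s, hs⟩
      refine ⟨s, (ε ^ s)⁻¹, ?_, ?_⟩
      · rw [Nat.one_le_iff_ne_zero]
        rintro rfl
        rw [mul_zero] at hs
        omega
      · apply hι
        have h5 : ι (C (ε ^ s)⁻¹) = (algebraMap k Ω (ε ^ s))⁻¹ := by
          rw [← map_inv₀]
          exact ι.commutes _
        have h6 : algebraMap k Ω (ε ^ s) ≠ 0 := (map_ne_zero _).2 (pow_ne_zero _ hε)
        rw [map_mul, map_pow, hQε, mul_pow, ← pow_mul, ← hs, h5, ← hθ, ← map_pow, ← mul_assoc,
          inv_mul_cancel₀ h6, one_mul]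
    by_cases he2 : dg o P = 1
    · exact Or.inl (d1 (he2 ▸ one_dvd _))
    by_cases hf2 : dg o Q = 1
    · exact Or.inr (d2 (hf2 ▸ one_dvd _))
    -- the degree of `R` for the weights of `P`, `Q`
    have hw : ∀ i, 0 < wts o P Q i := by
      intro i
      fin_cases i
      · exact he
      · exact hf
    have hN : 1 < dg (wts o P Q) R := by
      obtain ⟨d, hd, hd0⟩ : ∃ d, coeff d R ≠ 0 ∧ d ≠ 0 := by
        by_contra hcon
        have h5 : dg o R = 0 := by
          have h6 : R = C (coeff 0 R) := by
            refine MvPolynomial.ext _ _ fun d => ?_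
            rw [coeff_C]
            by_cases hd : 0 = d
            · rw [if_pos hd, hd]
            · rw [if_neg hd]
              by_contra hne
              exact hcon ⟨d, hne, Ne.symm hd⟩
          have h7 : IsH o 0 R := by
            intro d hd
            rw [h6, coeff_C] at hd
            have h8 : 0 = d := by
              by_contra h9
              exact hd (if_neg h9)
            rw [← h8, wt_o]
            rfl
          exact h7.dg_eq o hR0
        omega
      have h5 := wt_le (wts o P Q) hd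
      have h6 : wt (wts o P Q) d = d 0 * dg o P + d 1 * dg o Q := rfl
      have h7 : 0 < d 0 ∨ 0 < d 1 := by
        by_contra hcon
        apply hd0
        ext i
        fin_cases i
        · show d 0 = 0
          omega
        · show d 1 = 0
          omega
      rcases h7 with h7 | h7
      · have h8 : dg o P ≤ d 0 * dg o P := Nat.le_mul_of_pos_left _ h7
        omega
      · have h8 : dg o Q ≤ d 1 * dg o Q := Nat.le_mul_of_pos_left _ h7
        omega
    have hvan := dep_van ι hι o θ P Q he hθ.symm hQ0 ε hQε R (by rw [h1, dg_X]; exact hN)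
    -- the parametrization for `R`, `S`
    obtain ⟨θ', hθ'⟩ := IsAlgClosed.exists_pow_nat_eq (ι (tp (wts o P Q) R))
      (show 0 < dg (wts o P Q) R by omega)
    obtain ⟨p, hp, G, hG⟩ := exists_par ι hι (wts o P Q) θ' R S hw
      (fun i => by
        fin_cases i
        · exact ⟨P, h3⟩
        · exact ⟨Q, h4⟩) (by omega) hθ'.symm
    have hg : 0 < Nat.gcd (dg o P) (dg o Q) := Nat.gcd_pos_of_pos_left _ he
    obtain ⟨e', he'⟩ := Nat.gcd_dvd_left (dg o P) (dg o Q)
    obtain ⟨f', hf'⟩ := Nat.gcd_dvd_right (dg o P) (dg o Q)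
    have hcop : Nat.Coprime e' f' := by
      have h5 := Nat.coprime_div_gcd_div_gcd hg
      rw [Nat.div_eq_of_eq_mul_right hg he', Nat.div_eq_of_eq_mul_right hg hf'] at h5
      exact h5
    have he'0 : 0 < e' := by
      rw [Nat.pos_iff_ne_zero]
      rintro rfl
      rw [mul_zero] at he'
      omega
    have hf'0 : 0 < f' := by
      rw [Nat.pos_iff_ne_zero]
      rintro rfl
      rw [mul_zero] at hf'
      omega
    by_cases he'1 : e' = 1
    · left
      refine d1 ?_
      rw [he'1, mul_one] at he'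
      rw [he']
      exact Nat.gcd_dvd_right _ _
    by_cases hf'1 : f' = 1
    · right
      refine d2 ?_
      rw [hf'1, mul_one] at hf'
      rw [hf']
      exact Nat.gcd_dvd_left _ _
    exfalso
    obtain ⟨c, hc, hcur⟩ := unit_of e' f' _ hg he'0 hcop (w := wts o P Q) he' hf'
      (tp_isH (wts o P Q) R) ε hε hvan p hp
    refine curve (p 0) (p 1) f' e' (by omega) (by omega) hcop.symm (ε ^ e') c
      (pow_ne_zero _ hε) hc hcur ⟨G, ?_⟩
    rw [← hG]
    congr 2
    funext i
    fin_cases i
    · rfl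
    · rfl
  · left
    have e1 := indep ι hι o θ P Q he hθ.symm hQ0 hD R hR0
    have e2 := indep ι hι o θ P Q he hθ.symm hQ0 hD S hS0
    rw [h1, dg_X] at e1
    rw [h2, dg_X] at e2
    have hone : ∀ i, wts o P Q i ≤ 1 := by
      intro i
      have h5 : ∃ F, (F = R ∨ F = S) ∧ ∃ d, coeff d F ≠ 0 ∧ d i ≠ 0 := by
        have h6 : ∃ F : MvPolynomial (Fin 2) k, aeval ![R, S] F = X i := by
          fin_cases i
          · exact ⟨P, h3⟩
          · exact ⟨Q, h4⟩
        obtain ⟨F, hF⟩ := h6
        rcases var_occurs i hF with h7 | h7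
        · exact ⟨R, Or.inl rfl, h7⟩
        · exact ⟨S, Or.inr rfl, h7⟩
      obtain ⟨F, hF, d, hd, hdi⟩ := h5
      have h6 : wt (wts o P Q) d ≤ 1 := by
        refine (wt_le _ hd).trans ?_
        rcases hF with rfl | rfl
        · exact e1.symm.le
        · exact e2.symm.le
      refine le_trans ?_ h6
      have h7 : wts o P Q i ≤ d i * wts o P Q i := Nat.le_mul_of_pos_left _
        (Nat.pos_of_ne_zero hdi)
      refine h7.trans ?_
      rw [wt]
      fin_cases i
      · exact Nat.le_add_right _ _
      · exact Nat.le_add_left _ _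
    have hP1 : dg o P = 1 := le_antisymm (hone 0) he
    have hQ1 : dg o Q = 1 := le_antisymm (hone 1) hf
    have hwo : wts o P Q = o := by
      funext i
      fin_cases i
      · exact hP1
      · exact hQ1
    rw [hwo] at e1 e2
    exact ⟨hP1, hQ1, e1.symm, e2.symm⟩

end Pool.Agent.NegK.JK
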