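import Mathlib

/-! # Division with remainder for polynomials over a domain -/

set_option autoImplicit false

namespace Pool.Agent.NegK.JK

open Polynomial

theorem pdiv {R : Type*} [CommRing R] [IsDomain R] (F₀ : R[X]) (hm : 0 < F₀.natDegree) :
    ∀ (n : ℕ) (F : R[X]), F.natDegree ≤ n → ∃ (s : ℕ) (c : R[X][X]),
      (∀ i, (c.coeff i).natDegree < F₀.natDegree) ∧ c.eval F₀ = C (F₀.leadingCoeff ^ s) * F := by
  have small : ∀ F : R[X], F.natDegree < F₀.natDegree → ∃ (s : ℕ) (c : R[X][X]),
      (∀ i, (c.coeff i).natDegree < F₀.natDegree) ∧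
        c.eval F₀ = C (F₀.leadingCoeff ^ s) * F := by
    intro F hF
    refine ⟨0, C F, fun i => ?_, ?_⟩
    · rw [coeff_C]
      split_ifs
      · exact hF
      · rw [natDegree_zero]
        exact hm
    · rw [eval_C, pow_zero, C_1, one_mul]
  have hF₀ : F₀ ≠ 0 := by
    rintro rfl
    exact absurd hm (by simp)
  intro n
  induction n with
  | zero =>
    intro F hF
    exact small F (by omega)
  | succ n ih =>
    intro F hF
    by_cases hlt : F.natDegree < F₀.natDegree
    · exact small F hlt
    have hF0 : F ≠ 0 := by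
      rintro rfl
      rw [natDegree_zero] at hlt
      exact hlt hm
    have hl : F₀.leadingCoeff ≠ 0 := leadingCoeff_ne_zero.2 hF₀
    have hl' : F.leadingCoeff ≠ 0 := leadingCoeff_ne_zero.2 hF0
    -- the quotient
    let G : R[X] := C F.leadingCoeff * X ^ (F.natDegree - F₀.natDegree)
    have hG : G.natDegree = F.natDegree - F₀.natDegree := natDegree_C_mul_X_pow _ _ hl'
    have hG0 : G ≠ 0 := mul_ne_zero (C_ne_zero.2 hl') (pow_ne_zero _ X_ne_zero)
    have hGl : G.leadingCoeff = F.leadingCoeff := leadingCoeff_C_mul_X_pow _ _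
    let F' : R[X] := C F₀.leadingCoeff * F - G * F₀
    have hF' : F'.natDegree ≤ n := by
      by_cases h0 : F' = 0
      · rw [h0, natDegree_zero]
        exact Nat.zero_le _
      have h1 : degree (C F₀.leadingCoeff * F) = degree (G * F₀) := by
        rw [degree_eq_natDegree (mul_ne_zero (C_ne_zero.2 hl) hF0),
          degree_eq_natDegree (mul_ne_zero hG0 hF₀), natDegree_C_mul hl, natDegree_mul hG0 hF₀, hG]
        congr 1
        omega
      have h2 : degree F' < degree (C F₀.leadingCoeff * F) := by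
        refine degree_sub_lt_left h1 (mul_ne_zero (C_ne_zero.2 hl) hF0) ?_
        rw [leadingCoeff_mul, leadingCoeff_mul, leadingCoeff_C, hGl, mul_comm]
      have h3 := natDegree_lt_natDegree h0 h2
      rw [natDegree_C_mul hl] at h3
      omega
    obtain ⟨s1, c1, h1, e1⟩ := ih F' hF'
    obtain ⟨s2, c2, h2, e2⟩ := ih G (by omega)
    refine ⟨s1 + s2 + 1, C (C (F₀.leadingCoeff ^ s2)) * c1 + C (C (F₀.leadingCoeff ^ s1)) *
      (X * c2), fun i => ?_, ?_⟩
    · rw [coeff_add, coeff_C_mul, coeff_C_mul]
      refine lt_of_le_of_lt (natDegree_add_le _ _) (max_lt (lt_of_le_of_lt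
        (natDegree_C_mul_le _ _) (h1 i)) (lt_of_le_of_lt (natDegree_C_mul_le _ _) ?_))
      rcases i with _ | i
      · rw [coeff_X_mul_zero, natDegree_zero]
        exact hm
      · rw [coeff_X_mul]
        exact h2 i
    · rw [eval_add, eval_mul, eval_mul, eval_mul, eval_C, eval_C, eval_X, e1, e2]
      simp only [F', C_pow, pow_succ, pow_add, C_mul]
      ring

end Pool.Agent.NegK.JK
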