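import Pool.Agent.Lib.MP_28303a_al.JK.Hom
import Pool.Agent.Lib.MP_28303a_al.JK.Pdiv

/-! # Generators with dependent top forms -/

set_option autoImplicit false
set_option linter.unusedSectionVars false
set_option linter.unusedVariables false

namespace Pool.Agent.NegK.JK

universe u

open MvPolynomial

/-- Algebraic elements over an algebraically closed field. -/
theorem mem_of_alg {k Ω : Type u} [Field k] [IsAlgClosed k] [Field Ω] [Algebra k Ω] (x : Ω)
    (p : Polynomial k) (hp : p ≠ 0) (h : Polynomial.aeval x p = 0) :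
    ∃ c : k, algebraMap k Ω c = x := by
  have hx : IsIntegral k x := isAlgebraic_iff_isIntegral.1 ⟨p, hp, h⟩
  exact minpoly.mem_range_of_degree_eq_one k x
    (IsAlgClosed.degree_eq_one_of_irreducible k (minpoly.irreducible hx))

section

variable {k Ω : Type u} [Field k] [IsAlgClosed k] [Field Ω] [Algebra k Ω]
  (ι : MvPolynomial (Fin 2) k →ₐ[k] Ω) (hι : Function.Injective ι) (w : Fin 2 → ℕ) (θ : Ω)
  (hθ : θ ≠ 0)

/-- The top form of `a` is a multiple of a power of `θ`. -/
def InD (a : MvPolynomial (Fin 2) k) : Prop :=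
  ∃ c : k, c ≠ 0 ∧ ι (tp w a) = algebraMap k Ω c * θ ^ dg w a

theorem InD.mul {a b : MvPolynomial (Fin 2) k} (ha : InD ι w θ a) (hb : InD ι w θ b) (ha0 : a ≠ 0)
    (hb0 : b ≠ 0) : InD ι w θ (a * b) := by
  obtain ⟨c, hc, h1⟩ := ha
  obtain ⟨c', hc', h2⟩ := hb
  refine ⟨c * c', mul_ne_zero hc hc', ?_⟩
  rw [tp_mul, map_mul, h1, h2, dg_mul w ha0 hb0, pow_add, map_mul]
  ring

variable (P Q : MvPolynomial (Fin 2) k) (he : 0 < dg w P) (hP : ι (tp w P) = θ ^ dg w P)

theorem Hw_aeval (G : Polynomial k) : Hw w (Polynomial.aeval P G) =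
    (G.map (algebraMap k (MvPolynomial (Fin 2) k))).comp (Hw w P) := by
  rw [← Polynomial.aeval_algHom_apply, Polynomial.aeval_def, Polynomial.comp,
    Polynomial.eval₂_map]
  rfl

include he hP in
theorem inD_poly (G : Polynomial k) (hG : G ≠ 0) :
    Polynomial.aeval P G ≠ 0 ∧ InD ι w θ (Polynomial.aeval P G) := by
  have hinj : Function.Injective (algebraMap k (MvPolynomial (Fin 2) k)) := C_injective _ _
  have h1 : (G.map (algebraMap k (MvPolynomial (Fin 2) k))) ≠ 0 :=
    (Polynomial.map_ne_zero_iff hinj).2 hG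
  have hd : dg w (Polynomial.aeval P G) = G.natDegree * dg w P := by
    rw [dg, Hw_aeval, Polynomial.natDegree_comp, Polynomial.natDegree_map_eq_of_injective hinj, dg]
  have ht : tp w (Polynomial.aeval P G) = C G.leadingCoeff * tp w P ^ G.natDegree := by
    rw [tp, Hw_aeval, Polynomial.leadingCoeff_comp he.ne', Polynomial.leadingCoeff_map_of_injective
      hinj, Polynomial.natDegree_map_eq_of_injective hinj]
    rfl
  have hPt : tp w P ≠ 0 := by
    refine tp_ne w ?_
    rintro rfl
    rw [dg, map_zero, Polynomial.natDegree_zero] at he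
    exact lt_irrefl _ he
  have hl : G.leadingCoeff ≠ 0 := Polynomial.leadingCoeff_ne_zero.2 hG
  constructor
  · intro h0
    have h2 : tp w (Polynomial.aeval P G) = 0 := by
      rw [h0, tp, map_zero, Polynomial.leadingCoeff_zero]
    rw [ht] at h2
    exact mul_ne_zero (by simpa using hl) (pow_ne_zero _ hPt) h2
  · refine ⟨G.leadingCoeff, hl, ?_⟩
    rw [ht, hd, map_mul, map_pow, hP, ← pow_mul, mul_comm (dg w P)]
    congr 1
    exact ι.commutes _

/-- The elements as polynomials in `Q` with coefficients in `k[P]`. -/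
noncomputable def st : Polynomial (Polynomial k) →+* MvPolynomial (Fin 2) k :=
  Polynomial.eval₂RingHom (Polynomial.aeval P : Polynomial k →ₐ[k] _).toRingHom Q

theorem st_C (G : Polynomial k) : st P Q (Polynomial.C G) = Polynomial.aeval P G :=
  Polynomial.eval₂_C _ _

theorem st_X : st P Q Polynomial.X = Q := Polynomial.eval₂_X _ _

theorem st_surj (F : MvPolynomial (Fin 2) k) :
    ∃ G, st P Q G = aeval ![P, Q] F := by
  induction F using MvPolynomial.induction_on with
  | C a =>
    refine ⟨Polynomial.C (Polynomial.C a), ?_⟩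
    rw [st_C, Polynomial.aeval_C, aeval_C]
  | add p q hp hq =>
    obtain ⟨G, hG⟩ := hp
    obtain ⟨G', hG'⟩ := hq
    exact ⟨G + G', by rw [map_add, map_add, hG, hG']⟩
  | mul_X p i hp =>
    obtain ⟨G, hG⟩ := hp
    rw [map_mul, aeval_X]
    fin_cases i
    · refine ⟨G * Polynomial.C Polynomial.X, ?_⟩
      rw [map_mul, hG, st_C, Polynomial.aeval_X]
      rfl
    · refine ⟨G * Polynomial.X, ?_⟩
      rw [map_mul, hG, st_X]
      rfl

variable (b : MvPolynomial (Fin 2) k) (hb : b ≠ 0) (hτ : ∀ p : Polynomial k, p ≠ 0 →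
  Polynomial.aeval (ι (tp w b) / θ ^ dg w b) p ≠ 0)

include hι hθ hb hτ in
/-- There is no cancellation. -/
theorem no_cancel (c : Polynomial (MvPolynomial (Fin 2) k)) (hc : c ≠ 0)
    (hD : ∀ i, c.coeff i ≠ 0 → InD ι w θ (c.coeff i)) :
    ∃ p : Polynomial k, ι (tp w (c.eval b)) =
      θ ^ dg w (c.eval b) * Polynomial.aeval (ι (tp w b) / θ ^ dg w b) p := by
  classical
  obtain ⟨τ, hτd⟩ : ∃ τ, ι (tp w b) / θ ^ dg w b = τ := ⟨_, rfl⟩
  have hb1 : ι (tp w b) = τ * θ ^ dg w b := by
    rw [← hτd, div_mul_cancel₀ _ (pow_ne_zero _ hθ)]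
  rw [hτd] at hτ ⊢
  choose! κ hκ0 hκ using hD
  let nu : ℕ → ℕ := fun i => dg w (c.coeff i) + i * dg w b
  have hne : c.support.Nonempty := Polynomial.support_nonempty.2 hc
  obtain ⟨i₀, hi₀, hmax⟩ := Finset.exists_max_image c.support nu hne
  let p : Polynomial k := ∑ i ∈ c.support.filter (fun i => nu i = nu i₀),
    Polynomial.C (κ i) * Polynomial.X ^ i
  have hp : p ≠ 0 := by
    intro h0
    have h1 : p.coeff i₀ = κ i₀ := by
      simp only [p, Polynomial.finsetSum_coeff, Polynomial.coeff_C_mul, Polynomial.coeff_X_pow]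
      rw [Finset.sum_eq_single i₀]
      · rw [if_pos rfl, mul_one]
      · intro i _ hi
        rw [if_neg (Ne.symm hi), mul_zero]
      · intro h
        have h' : i₀ ∈ c.support.filter (fun i => nu i = nu i₀) :=
          Finset.mem_filter.2 ⟨hi₀, rfl⟩
        exact absurd h' h
    rw [h0, Polynomial.coeff_zero] at h1
    exact hκ0 i₀ (Polynomial.mem_support_iff.1 hi₀) h1.symm
  have hsum : Hw w (c.eval b) = ∑ i ∈ c.support, Hw w (c.coeff i) * Hw w b ^ i := by
    rw [Polynomial.eval_eq_sum, Polynomial.sum, map_sum]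
    exact Finset.sum_congr rfl fun i _ => by rw [map_mul, map_pow]
  have hdeg : ∀ i ∈ c.support, (Hw w (c.coeff i) * Hw w b ^ i).natDegree = nu i := by
    intro i hi
    rw [Polynomial.natDegree_mul (Hw_ne w (Polynomial.mem_support_iff.1 hi))
      (pow_ne_zero _ (Hw_ne w hb)), Polynomial.natDegree_pow]
    rfl
  have hco : ι ((Hw w (c.eval b)).coeff (nu i₀)) = θ ^ nu i₀ * Polynomial.aeval τ p := by
    have hp' : Polynomial.aeval τ p = ∑ i ∈ c.support.filter (fun i => nu i = nu i₀),
        algebraMap k Ω (κ i) * τ ^ i := by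
      simp only [p, map_sum, map_mul, Polynomial.aeval_C, map_pow, Polynomial.aeval_X]
    rw [hsum, Polynomial.finsetSum_coeff, map_sum, hp', Finset.mul_sum, Finset.sum_filter]
    refine Finset.sum_congr rfl fun i hi => ?_
    by_cases h1 : nu i = nu i₀
    · rw [if_pos h1, ← h1]
      have h2 : (Hw w (c.coeff i) * Hw w b ^ i).coeff (nu i) = tp w (c.coeff i) * tp w b ^ i := by
        rw [← hdeg i hi, Polynomial.coeff_natDegree, Polynomial.leadingCoeff_mul,
          Polynomial.leadingCoeff_pow, tp, tp]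
      rw [h2, map_mul, map_pow, hκ i (Polynomial.mem_support_iff.1 hi), hb1, mul_pow, ← pow_mul]
      simp only [nu]
      rw [pow_add, mul_comm i]
      ring
    · rw [if_neg h1]
      have h2 : nu i < nu i₀ := lt_of_le_of_ne (hmax i hi) h1
      rw [Polynomial.coeff_eq_zero_of_natDegree_lt (by rw [hdeg i hi]; exact h2), map_zero]
  have hco0 : (Hw w (c.eval b)).coeff (nu i₀) ≠ 0 := by
    intro h0
    rw [h0, map_zero] at hco
    exact mul_ne_zero (pow_ne_zero _ hθ) (hτ p hp) hco.symm
  have hle : (Hw w (c.eval b)).natDegree ≤ nu i₀ := by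
    rw [hsum]
    refine Polynomial.natDegree_sum_le_of_forall_le _ _ fun i hi => ?_
    rw [hdeg i hi]
    exact hmax i hi
  have hN : dg w (c.eval b) = nu i₀ := le_antisymm hle (Polynomial.le_natDegree_of_ne_zero hco0)
  refine ⟨p, ?_⟩
  rw [hN, ← hco, ← hN]
  rfl

end

end Pool.Agent.NegK.JK
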