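import Pool.Agent.Lib.MP_28303a_al.JK.Gen
import Pool.Agent.Lib.MP_28303a_al.AP.Fin

/-! # Groups of automorphisms of the affine plane and of matrices -/

set_option autoImplicit false
set_option linter.unusedSectionVars false
set_option linter.unusedVariables false

namespace Pool.Agent.NegK.JK

universe u

open Matrix
open Pool.Agent.NegK.TW Pool.Agent.NegK.TT Pool.Agent.NegK.NT

/-- All automorphisms are tame. -/
noncomputable def tameEquiv (F : Type u) [Field F] : AP.Au F ≃* AP.tame F :=
  ((MulEquiv.subgroupCongr (tame_top F)).trans Subgroup.topEquiv).symm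

section

variable {F : Type u} [Field F] {A : Type u} [CommRing A] {N : ℕ} (hN : 0 < N)
  (hF : (N : F) = 0) (hA : (N : A) = 0) {n : ℕ} (b : Fin n → ℕ)
  (hb : ∀ k, (Finset.univ.filter fun i => b i = k).card ≤ 2) {K : Type u} [Field K]
  (hK : H70.Rig K) {Γ : Type u} [Group Γ] (χ : Γ →* AP.Au F × GL (Fin n) A × GL (Fin 2) K)
  (htri : ∀ g, ((χ g).2.1 : Matrix (Fin n) (Fin n) A).BlockTriangular b)
  (htf : TorsionFree χ.range)

/-- The homomorphism to the group with the tame automorphisms. -/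
noncomputable def tch : Γ →* AP.tame F × GL (Fin n) A × GL (Fin 2) K :=
  (MulEquiv.prodCongr (tameEquiv F) (MulEquiv.refl (GL (Fin n) A × GL (Fin 2) K))).toMonoidHom.comp χ

theorem tch_eq (g h : Γ) : tch χ g = tch χ h ↔ χ g = χ h :=
  (MulEquiv.prodCongr (tameEquiv F) (MulEquiv.refl (GL (Fin n) A × GL (Fin 2) K))).injective.eq_iff

theorem tch_snd (g : Γ) : (tch χ g).2 = (χ g).2 := rfl

theorem tch_ker : (tch χ).ker = χ.ker := by
  ext g
  rw [MonoidHom.mem_ker, MonoidHom.mem_ker, ← map_one (tch χ), ← map_one χ, tch_eq]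

include htf in
theorem tch_tf : TorsionFree (tch χ).range := by
  rintro ⟨_, g, rfl⟩ m hm hg
  refine Subtype.ext ?_
  have h1 : tch χ (g ^ m) = tch χ 1 := by
    rw [map_pow, map_one]
    exact congrArg Subtype.val hg
  have h2 : χ g ^ m = 1 := by
    rw [← map_pow, (tch_eq χ _ _).1 h1, map_one]
  have h3 : χ g = 1 := congrArg Subtype.val (htf ⟨χ g, g, rfl⟩ m hm (Subtype.ext h2))
  show tch χ g = 1
  rw [← map_one (tch χ), tch_eq, h3, map_one]

include hN hF hA hb hK htri htf in
/-- The kernel is in `𝒩`. -/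
theorem au_inL (hRel : ER.RelStatement.{u}) (hker : InN χ.ker) : H19.InL Γ :=
  AP.lin_inL hN hF hA b hb hK (tch χ) htri (tch_tf χ htf) hRel (by rw [tch_ker]; exact hker)

include hN hF hA hb hK htri htf in
/-- The kernel is trivial. -/
theorem au_inK (hRel : ER.RelStatement.{u}) (hχ : Function.Injective χ) : InK Γ :=
  AP.lin_inK hN hF hA b hb hK (tch χ) htri (tch_tf χ htf) hRel
    fun g h hgh => hχ ((tch_eq χ g h).1 hgh)

end

end Pool.Agent.NegK.JK
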