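import Pool.Agent.Lib.MP_28303a_al.JK.Core
import Pool.Agent.Lib.MP_28303a_al.AP.Sub

/-! # Jung and van der Kulk: all automorphisms are tame -/

set_option autoImplicit false
set_option linter.unusedSectionVars false
set_option linter.unusedVariables false

namespace Pool.Agent.NegK.JK

universe u v

open MvPolynomial

section

variable {k : Type u} {L : Type v} [Field k] [Field L] (f : k →+* L)

theorem Hw_map (w : Fin 2 → ℕ) (F : MvPolynomial (Fin 2) k) :
    Hw w (map f F) = (Hw w F).map (map f) := by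
  refine Polynomial.ext fun n => MvPolynomial.ext _ _ fun d => ?_
  rw [coeff_Hw, Polynomial.coeff_map, coeff_map, coeff_map, coeff_Hw]
  split_ifs
  · rfl
  · rw [map_zero]

theorem dg_map (w : Fin 2 → ℕ) (F : MvPolynomial (Fin 2) k) : dg w (map f F) = dg w F := by
  rw [dg, Hw_map, Polynomial.natDegree_map_eq_of_injective (map_injective f f.injective), dg]

theorem tp_map (w : Fin 2 → ℕ) (F : MvPolynomial (Fin 2) k) :
    tp w (map f F) = map f (tp w F) := by
  rw [tp, Hw_map, Polynomial.leadingCoeff_map_of_injective (map_injective f f.injective), tp]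

theorem aeval_map2 (P Q F : MvPolynomial (Fin 2) k) :
    aeval ![map f P, map f Q] (map f F) = map f (aeval ![P, Q] F) := by
  rw [aeval_def, aeval_def, eval₂_map, eval₂_comp_left]
  have h1 : (algebraMap L (MvPolynomial (Fin 2) L)).comp f =
      (map f : MvPolynomial (Fin 2) k →+* _).comp (algebraMap k (MvPolynomial (Fin 2) k)) := by
    refine RingHom.ext fun c => ?_
    show C (f c) = map f (C c)
    rw [map_C]
  have h2 : ![map f P, map f Q] = (map f : MvPolynomial (Fin 2) k →+* _) ∘ ![P, Q] := by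
    funext i
    fin_cases i <;> rfl
  rw [h1, h2]

theorem descend (P Q : MvPolynomial (Fin 2) k) (hP : P ≠ 0) (s : ℕ) (ε : L)
    (h : tp o (map f Q) = C ε * tp o (map f P) ^ s) : ∃ ε' : k, tp o Q = C ε' * tp o P ^ s := by
  rw [tp_map, tp_map, ← map_pow] at h
  obtain ⟨d, hd⟩ := ne_zero_iff.1 (pow_ne_zero s (tp_ne o hP))
  have h1 := congrArg (coeff d) h
  rw [coeff_map, coeff_C_mul, coeff_map] at h1
  have h2 : f (coeff d (tp o P ^ s)) ≠ 0 := (map_ne_zero f).2 hd
  have h3 : ε = f (coeff d (tp o Q) / coeff d (tp o P ^ s)) := by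
    rw [map_div₀, h1, mul_div_cancel_right₀ _ h2]
  refine ⟨coeff d (tp o Q) / coeff d (tp o P ^ s), ?_⟩
  apply map_injective f f.injective
  rw [h, h3, map_mul, map_C]

end

open AP

variable {k : Type u} [Field k]

theorem au_eq (φ : Au k) (F : MvPolynomial (Fin 2) k) :
    aeval ![φ (X 0), φ (X 1)] F = φ F := by
  have h1 : (aeval ![φ (X 0), φ (X 1)] : MvPolynomial (Fin 2) k →ₐ[k] _) = φ.toAlgHom := by
    refine MvPolynomial.algHom_ext fun i => ?_
    rw [aeval_X]
    fin_cases i <;> rfl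
  exact DFunLike.congr_fun h1 F

/-- The relation of the top forms of an automorphism. -/
theorem core_au (φ : Au k) :
    (dg o (φ (X 0)) = 1 ∧ dg o (φ (X 1)) = 1 ∧ dg o (φ⁻¹ (X 0)) = 1 ∧ dg o (φ⁻¹ (X 1)) = 1) ∨
      (∃ s : ℕ, ∃ ε : k, 1 ≤ s ∧ tp o (φ (X 1)) = C ε * tp o (φ (X 0)) ^ s) ∨
      (∃ s : ℕ, ∃ ε : k, 1 ≤ s ∧ tp o (φ (X 0)) = C ε * tp o (φ (X 1)) ^ s) := by
  have hne : ∀ i, φ (X i) ≠ 0 := fun i h => X_ne_zero i (φ.injective (h.trans (map_zero φ).symm))
  let f := algebraMap k (AlgebraicClosure k)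
  have key : ∀ (ψ : Au k) (i : Fin 2), aeval ![map f (ψ (X 0)), map f (ψ (X 1))]
      (map f (ψ⁻¹ (X i))) = X i := by
    intro ψ i
    rw [aeval_map2, au_eq]
    have h1 : ψ (ψ⁻¹ (X i)) = X i := by
      rw [← AlgEquiv.mul_apply, mul_inv_cancel]
      rfl
    rw [h1, map_X]
  have key' : ∀ i, aeval ![map f (φ⁻¹ (X 0)), map f (φ⁻¹ (X 1))] (map f (φ (X i))) = X i := by
    intro i
    have h1 := key φ⁻¹ i
    rw [inv_inv] at h1
    exact h1
  rcases core _ _ _ _ (key φ 0) (key φ 1) (key' 0) (key' 1) with h | ⟨s, ε, hs, h⟩ | ⟨s, ε, hs, h⟩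
  · rw [dg_map, dg_map, dg_map, dg_map] at h
    exact Or.inl h
  · obtain ⟨ε', h'⟩ := descend f _ _ (hne 0) s ε h
    exact Or.inr (Or.inl ⟨s, ε', hs, h'⟩)
  · obtain ⟨ε', h'⟩ := descend f _ _ (hne 1) s ε h
    exact Or.inr (Or.inr ⟨s, ε', hs, h'⟩)

theorem Hw_C (w : Fin 2 → ℕ) (c : k) : Hw w (C c) = Polynomial.C (C c) := (Hw w).commutes c

/-- One step. -/
theorem step {P Q : MvPolynomial (Fin 2) k} (hP : P ≠ 0) (hQ : Q ≠ 0) (hQ1 : 0 < dg o Q) {s : ℕ}
    {ε : k} (h : tp o Q = C ε * tp o P ^ s) : dg o (Q - C ε * P ^ s) < dg o Q := by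
  have hε : (C ε : MvPolynomial (Fin 2) k) ≠ 0 := by
    intro h0
    rw [h0, zero_mul] at h
    exact tp_ne o hQ h
  have hH : Hw o (C ε * P ^ s) = Polynomial.C (C ε) * Hw o P ^ s := by
    rw [map_mul, map_pow, Hw_C]
  have hl : tp o (C ε * P ^ s) = tp o Q := by
    rw [tp, hH, Polynomial.leadingCoeff_mul, Polynomial.leadingCoeff_C,
      Polynomial.leadingCoeff_pow, h]
    rfl
  have hne : C ε * P ^ s ≠ 0 := mul_ne_zero hε (pow_ne_zero _ hP)
  have hd : dg o (C ε * P ^ s) = dg o Q := by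
    have h1 := tp_isH o (C ε * P ^ s)
    rw [hl] at h1
    rw [← h1.dg_eq o (tp_ne o hQ), (tp_isH o Q).dg_eq o (tp_ne o hQ)]
  have hdeg : (Hw o Q).degree = (Hw o (C ε * P ^ s)).degree := by
    rw [Polynomial.degree_eq_natDegree (Hw_ne o hQ), Polynomial.degree_eq_natDegree (Hw_ne o hne)]
    exact congrArg _ hd.symm
  have hlt := Polynomial.degree_sub_lt_left hdeg (Hw_ne o hQ) hl.symm
  rw [dg, map_sub]
  by_cases h0 : Hw o Q - Hw o (C ε * P ^ s) = 0
  · rw [h0, Polynomial.natDegree_zero]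
    exact hQ1
  · exact Polynomial.natDegree_lt_natDegree h0 hlt

/-- The substitution `x ↦ x + ε y ^ s`. -/
noncomputable def eh (ε : k) (s : ℕ) : MvPolynomial (Fin 2) k →ₐ[k] MvPolynomial (Fin 2) k :=
  aeval ![X 0 + C ε * X 1 ^ s, X 1]

theorem eh_zero (ε : k) (s : ℕ) : eh ε s (X 0) = X 0 + C ε * X 1 ^ s := aeval_X _ _

theorem eh_one (ε : k) (s : ℕ) : eh ε s (X 1) = X 1 := aeval_X _ _

theorem eh_C (ε : k) (s : ℕ) (c : k) : eh ε s (C c) = C c := (eh ε s).commutes c

theorem eh_comp (ε δ : k) (s : ℕ) (h : ε + δ = 0) :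
    (eh ε s).comp (eh δ s) = AlgHom.id k (MvPolynomial (Fin 2) k) := by
  refine MvPolynomial.algHom_ext (Fin.forall_fin_two.2 ⟨?_, ?_⟩)
  · rw [AlgHom.comp_apply, eh_zero, map_add, map_mul, map_pow, eh_zero, eh_one, eh_C, add_assoc,
      ← add_mul, ← C_add, h, C_0, zero_mul, add_zero]
    rfl
  · rw [AlgHom.comp_apply, eh_one, eh_one]
    rfl

/-- The elementary automorphism `x ↦ x - ε y ^ s`. -/
noncomputable def el (ε : k) (s : ℕ) : Au k :=
  AlgEquiv.ofAlgHom (eh (-ε) s) (eh ε s) (eh_comp _ _ s (neg_add_cancel ε))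
    (eh_comp _ _ s (add_neg_cancel ε))

theorem el_zero (ε : k) (s : ℕ) : el ε s (X 0) = X 0 - C ε * X 1 ^ s := by
  have h1 : el ε s (X 0) = eh (-ε) s (X 0) := rfl
  rw [h1, eh_zero, C_neg]
  ring

theorem el_one (ε : k) (s : ℕ) : el ε s (X 1) = X 1 := eh_one (-ε) s

theorem el_mem (ε : k) (s : ℕ) : el ε s ∈ tame k := by
  refine Subgroup.subset_closure (Or.inr ⟨el_one ε s, Polynomial.C (-ε) * Polynomial.X ^ s, ?_⟩)
  rw [el_zero, map_mul, Polynomial.aeval_C, map_pow, Polynomial.aeval_X, algebraMap_eq, C_neg]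
  ring

/-- The exchange of the variables. -/
noncomputable def sw : Au k := renameEquiv k (Equiv.swap 0 1)

theorem sw_X (i : Fin 2) : sw (X i : MvPolynomial (Fin 2) k) = X (Equiv.swap 0 1 i) := by
  show rename _ (X i) = _
  rw [rename_X]

theorem sw_inv : (sw : Au k)⁻¹ = sw := by
  refine inv_eq_of_mul_eq_one_left (au_ext ?_ ?_)
  · rw [AlgEquiv.mul_apply, sw_X, sw_X, Equiv.swap_apply_left, Equiv.swap_apply_right]
    rfl
  · rw [AlgEquiv.mul_apply, sw_X, sw_X, Equiv.swap_apply_right, Equiv.swap_apply_left]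
    rfl

theorem sw_mem : (sw : Au k) ∈ tame k := by
  refine Subgroup.subset_closure (Or.inl fun i => ?_)
  rw [sw_inv, sw_X, totalDegree_X]
  exact ⟨le_rfl, le_rfl⟩

theorem deg_le (F : MvPolynomial (Fin 2) k) : F.totalDegree ≤ dg o F := by
  refine Finset.sup_le fun d hd => ?_
  have h1 := wt_le o (mem_support_iff.1 hd)
  rw [wt_o] at h1
  rw [Finsupp.sum_fintype _ _ (fun _ => rfl), Fin.sum_univ_two]
  exact h1

/-- Jung and van der Kulk: every automorphism of the polynomial ring in two variables over a field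
is tame. -/
theorem mem_tame : ∀ (n : ℕ) (φ : Au k), dg o (φ (X 0)) + dg o (φ (X 1)) = n → φ ∈ tame k := by
  intro n
  induction n using Nat.strong_induction_on with
  | _ n ih =>
    intro φ hn
    have hne : ∀ i, φ (X i) ≠ 0 := fun i h =>
      X_ne_zero i (φ.injective (h.trans (map_zero φ).symm))
    have hpos : ∀ i, 0 < dg o (φ (X i)) := fun i =>
      lt_of_lt_of_le (one_le_deg φ i) (deg_le _)
    rcases core_au φ with ⟨h0, h1, h2, h3⟩ | ⟨s, ε, hs, h⟩ | ⟨s, ε, hs, h⟩
    · refine Subgroup.subset_closure (Or.inl fun i => ?_)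
      fin_cases i
      · exact ⟨h0 ▸ deg_le _, h2 ▸ deg_le _⟩
      · exact ⟨h1 ▸ deg_le _, h3 ▸ deg_le _⟩
    · -- reduce the second coordinate
      let ψ : Au k := sw * el ε s * sw
      have hψ : ψ ∈ tame k := Subgroup.mul_mem _ (Subgroup.mul_mem _ sw_mem (el_mem ε s)) sw_mem
      have e0 : (φ * ψ) (X 0) = φ (X 0) := by
        show φ (sw (el ε s (sw (X 0)))) = _
        rw [sw_X, Equiv.swap_apply_left, el_one, sw_X, Equiv.swap_apply_right]
      have e1 : (φ * ψ) (X 1) = φ (X 1) - C ε * φ (X 0) ^ s := by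
        show φ (sw (el ε s (sw (X 1)))) = _
        rw [sw_X, Equiv.swap_apply_right, el_zero, map_sub, map_sub, map_mul, map_mul, map_pow,
          map_pow, sw_X, sw_X, Equiv.swap_apply_right, Equiv.swap_apply_left, au_C, au_C]
      have hlt := step (hne 0) (hne 1) (hpos 1) h
      have h1 := ih _ (by rw [← hn]; omega) (φ * ψ) (congrArg₂ (fun a b => dg o a + dg o b) e0 e1)
      exact (Subgroup.mul_mem_cancel_right _ hψ).1 h1
    · -- reduce the first coordinate
      have e0 : (φ * el ε s) (X 0) = φ (X 0) - C ε * φ (X 1) ^ s := by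
        show φ (el ε s (X 0)) = _
        rw [el_zero, map_sub, map_mul, map_pow, au_C]
      have e1 : (φ * el ε s) (X 1) = φ (X 1) := by
        show φ (el ε s (X 1)) = _
        rw [el_one]
      have hlt := step (hne 1) (hne 0) (hpos 0) h
      have h1 := ih _ (by rw [← hn]; omega) (φ * el ε s)
        (congrArg₂ (fun a b => dg o a + dg o b) e0 e1)
      exact (Subgroup.mul_mem_cancel_right _ (el_mem ε s)).1 h1

theorem tame_top (k : Type u) [Field k] : tame k = ⊤ :=
  (Subgroup.eq_top_iff' _).2 fun φ => mem_tame _ φ rfl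

end Pool.Agent.NegK.JK
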