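import Mathlib

/-! # Weighted degrees of polynomials in two variables -/

set_option autoImplicit false
set_option linter.unusedSectionVars false
set_option linter.unusedVariables false

namespace Pool.Agent.NegK.JK

universe u v

open MvPolynomial

variable {k : Type u} [Field k]

/-- The weight of a monomial. -/
def wt (w : Fin 2 → ℕ) (d : Fin 2 →₀ ℕ) : ℕ := d 0 * w 0 + d 1 * w 1

theorem wt_add (w : Fin 2 → ℕ) (d d' : Fin 2 →₀ ℕ) : wt w (d + d') = wt w d + wt w d' := by
  simp only [wt, Finsupp.coe_add, Pi.add_apply]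
  ring

/-- The homogenization `F(x T^(w 0), y T^(w 1))`. -/
noncomputable def Hw (w : Fin 2 → ℕ) :
    MvPolynomial (Fin 2) k →ₐ[k] Polynomial (MvPolynomial (Fin 2) k) :=
  aeval fun i => Polynomial.C (X i) * Polynomial.X ^ w i

theorem Hw_monomial (w : Fin 2 → ℕ) (d : Fin 2 →₀ ℕ) (c : k) :
    Hw w (monomial d c) = Polynomial.C (monomial d c) * Polynomial.X ^ wt w d := by
  rw [Hw, aeval_monomial, Finsupp.prod_fintype _ _ (fun i => pow_zero _), Fin.prod_univ_two,
    mul_pow, mul_pow, ← pow_mul, ← pow_mul, monomial_eq, Finsupp.prod_fintype _ _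
    (fun i => pow_zero _), Fin.prod_univ_two, wt, pow_add, Polynomial.C_mul, Polynomial.C_mul,
    Polynomial.C_pow, Polynomial.C_pow, mul_comm (d 0), mul_comm (d 1)]
  have : (algebraMap k (Polynomial (MvPolynomial (Fin 2) k))) c =
    Polynomial.C (C c) := rfl
  rw [this]
  ring

theorem coeff_Hw (w : Fin 2 → ℕ) (F : MvPolynomial (Fin 2) k) (n : ℕ) (d : Fin 2 →₀ ℕ) :
    coeff d ((Hw w F).coeff n) = if wt w d = n then coeff d F else 0 := by
  induction F using MvPolynomial.induction_on' with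
  | monomial u a =>
    rw [Hw_monomial, Polynomial.coeff_C_mul, Polynomial.coeff_X_pow]
    by_cases h1 : n = wt w u
    · rw [if_pos h1, mul_one, coeff_monomial]
      by_cases h2 : u = d
      · subst h2
        rw [if_pos rfl, if_pos h1.symm]
      · rw [if_neg h2]
        split_ifs <;> rfl
    · rw [if_neg h1, mul_zero, coeff_zero, coeff_monomial]
      by_cases h2 : u = d
      · subst h2
        rw [if_neg (Ne.symm h1)]
      · rw [if_neg h2]
        split_ifs <;> rfl
  | add p q hp hq =>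
    rw [map_add, Polynomial.coeff_add, coeff_add, hp, hq, coeff_add]
    split_ifs
    · rfl
    · rw [add_zero]

theorem Hw_inj (w : Fin 2 → ℕ) : Function.Injective (Hw (k := k) w) := by
  rw [injective_iff_map_eq_zero]
  intro F hF
  refine MvPolynomial.ext _ _ fun d => ?_
  have h := coeff_Hw w F (wt w d) d
  rw [hF, Polynomial.coeff_zero, coeff_zero, if_pos rfl] at h
  rw [← h, coeff_zero]

/-- Homogeneous polynomials of degree `n` for the weights `w`. -/
def IsH (w : Fin 2 → ℕ) (n : ℕ) (a : MvPolynomial (Fin 2) k) : Prop :=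
  ∀ d, coeff d a ≠ 0 → wt w d = n

theorem IsH.hw {w : Fin 2 → ℕ} {n : ℕ} {a : MvPolynomial (Fin 2) k} (h : IsH w n a) :
    Hw w a = Polynomial.C a * Polynomial.X ^ n := by
  refine Polynomial.ext fun m => MvPolynomial.ext _ _ fun d => ?_
  rw [coeff_Hw, Polynomial.coeff_C_mul, Polynomial.coeff_X_pow]
  by_cases h0 : coeff d a = 0
  · by_cases h1 : m = n
    · rw [if_pos h1, mul_one, h0]
      split_ifs <;> rfl
    · rw [if_neg h1, mul_zero, coeff_zero, h0]
      split_ifs <;> rfl
  · rw [h d h0]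
    by_cases h1 : m = n
    · rw [if_pos h1, mul_one, if_pos h1.symm]
    · rw [if_neg h1, mul_zero, coeff_zero, if_neg (Ne.symm h1)]

/-- The degree. -/
noncomputable def dg (w : Fin 2 → ℕ) (F : MvPolynomial (Fin 2) k) : ℕ := (Hw w F).natDegree

/-- The top form. -/
noncomputable def tp (w : Fin 2 → ℕ) (F : MvPolynomial (Fin 2) k) : MvPolynomial (Fin 2) k :=
  (Hw w F).leadingCoeff

variable (w : Fin 2 → ℕ)

theorem Hw_ne {F : MvPolynomial (Fin 2) k} (hF : F ≠ 0) : Hw w F ≠ 0 :=
  fun h => hF (Hw_inj w (h.trans (map_zero _).symm))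

theorem tp_ne {F : MvPolynomial (Fin 2) k} (hF : F ≠ 0) : tp w F ≠ 0 :=
  Polynomial.leadingCoeff_ne_zero.2 (Hw_ne w hF)

theorem tp_mul (F G : MvPolynomial (Fin 2) k) : tp w (F * G) = tp w F * tp w G := by
  rw [tp, map_mul, Polynomial.leadingCoeff_mul, tp, tp]

theorem tp_pow (F : MvPolynomial (Fin 2) k) (n : ℕ) : tp w (F ^ n) = tp w F ^ n := by
  rw [tp, map_pow, Polynomial.leadingCoeff_pow, tp]

theorem dg_mul {F G : MvPolynomial (Fin 2) k} (hF : F ≠ 0) (hG : G ≠ 0) :
    dg w (F * G) = dg w F + dg w G := by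
  rw [dg, map_mul, Polynomial.natDegree_mul (Hw_ne w hF) (Hw_ne w hG), dg, dg]

theorem dg_pow (F : MvPolynomial (Fin 2) k) (n : ℕ) : dg w (F ^ n) = n * dg w F := by
  rw [dg, map_pow, Polynomial.natDegree_pow, dg]

theorem tp_isH (F : MvPolynomial (Fin 2) k) : IsH w (dg w F) (tp w F) := by
  intro d hd
  by_contra h
  apply hd
  rw [tp, Polynomial.leadingCoeff, coeff_Hw]
  exact if_neg h

theorem IsH.dg_eq {n : ℕ} {a : MvPolynomial (Fin 2) k} (h : IsH w n a) (ha : a ≠ 0) :
    dg w a = n := by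
  rw [dg, h.hw, Polynomial.natDegree_C_mul_X_pow n a ha]

theorem IsH.tp_eq {n : ℕ} {a : MvPolynomial (Fin 2) k} (h : IsH w n a) : tp w a = a := by
  rw [tp, h.hw, Polynomial.leadingCoeff_mul_X_pow, Polynomial.leadingCoeff_C]

theorem isH_X (i : Fin 2) : IsH w (w i) (X i : MvPolynomial (Fin 2) k) := by
  intro d hd
  rw [coeff_X] at hd
  have h1 : Finsupp.single i 1 = d := by
    by_contra h
    exact hd (if_neg h)
  subst h1
  fin_cases i <;> simp [wt]

/-- The degree bounds the weights of the monomials. -/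
theorem wt_le {F : MvPolynomial (Fin 2) k} {d : Fin 2 →₀ ℕ} (hd : coeff d F ≠ 0) :
    wt w d ≤ dg w F := by
  refine Polynomial.le_natDegree_of_ne_zero fun h => hd ?_
  have h1 := coeff_Hw w F (wt w d) d
  rw [h, coeff_zero, if_pos rfl] at h1
  exact h1.symm

/-- Evaluation of homogeneous polynomials. -/
theorem IsH.aeval_mul {w : Fin 2 → ℕ} {n : ℕ} {a : MvPolynomial (Fin 2) k} (h : IsH w n a)
    {B : Type v} [CommRing B] [Algebra k B] (b : Fin 2 → B) (t : B) :
    aeval (fun i => b i * t ^ w i) a = t ^ n * aeval b a := by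
  rw [aeval_def, aeval_def, eval₂_eq', eval₂_eq', Finset.mul_sum]
  refine Finset.sum_congr rfl fun d hd => ?_
  rw [Fin.prod_univ_two, Fin.prod_univ_two, ← h d (mem_support_iff.1 hd), wt, mul_pow, mul_pow,
    ← pow_mul, ← pow_mul, pow_add, mul_comm (d 0), mul_comm (d 1)]
  ring

/-- A nonzero homogeneous polynomial does not vanish on the line `x = 1`. -/
theorem IsH.line_ne {w : Fin 2 → ℕ} {n : ℕ} {a : MvPolynomial (Fin 2) k} (h : IsH w n a)
    (ha : a ≠ 0) (hw : 0 < w 0) : aeval ![1, (Polynomial.X : Polynomial k)] a ≠ 0 := by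
  obtain ⟨d, hd⟩ := ne_zero_iff.1 ha
  intro h0
  apply hd
  have h1 : (aeval ![1, (Polynomial.X : Polynomial k)] a).coeff (d 1) = coeff d a := by
    rw [aeval_def, eval₂_eq', Polynomial.finsetSum_coeff, Finset.sum_eq_single d]
    · rw [Fin.prod_univ_two, Matrix.cons_val_zero, Matrix.cons_val_one, Matrix.cons_val_fin_one,
        one_pow, one_mul, Polynomial.algebraMap_apply, Algebra.algebraMap_self_apply, Polynomial.coeff_C_mul,
        Polynomial.coeff_X_pow, if_pos rfl, mul_one]
    · intro d' hd' hne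
      rw [Fin.prod_univ_two, Matrix.cons_val_zero, Matrix.cons_val_one, Matrix.cons_val_fin_one,
        one_pow, one_mul, Polynomial.algebraMap_apply, Algebra.algebraMap_self_apply, Polynomial.coeff_C_mul,
        Polynomial.coeff_X_pow, if_neg, mul_zero]
      intro h2
      apply hne
      have h3 := (h d' (mem_support_iff.1 hd')).trans (h d hd).symm
      rw [wt, wt, h2] at h3
      have h4 : d' 0 * w 0 = d 0 * w 0 := by omega
      have h5 := Nat.eq_of_mul_eq_mul_right hw h4
      ext i
      fin_cases i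
      · exact h5
      · exact h2.symm
    · intro h2
      exact absurd (mem_support_iff.2 hd) h2
  rw [← h1, h0, Polynomial.coeff_zero]

end Pool.Agent.NegK.JK
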