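import Pool.Agent.Lib.MP_28303a_al.JK.Dep

/-! # The parametrization of the curve `tp w P = 1` -/

set_option autoImplicit false
set_option linter.unusedSectionVars false
set_option linter.unusedVariables false

namespace Pool.Agent.NegK.JK

universe u

open MvPolynomial

variable {k Ω : Type u} [Field k] [IsAlgClosed k] [Field Ω] [Algebra k Ω]
  (ι : MvPolynomial (Fin 2) k →ₐ[k] Ω) (hι : Function.Injective ι) (w : Fin 2 → ℕ) (θ : Ω)

include hι in
theorem not_both (hw : ∀ i, 0 < w i) (h0 : InD ι w θ (X 0)) (h1 : InD ι w θ (X 1)) : False := by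
  obtain ⟨c, hc, e0⟩ := h0
  obtain ⟨c', hc', e1⟩ := h1
  rw [(isH_X w 0).tp_eq, (isH_X w 0).dg_eq w (X_ne_zero 0)] at e0
  rw [(isH_X w 1).tp_eq, (isH_X w 1).dg_eq w (X_ne_zero 1)] at e1
  have hC : ∀ x : k, ι (C x) = algebraMap k Ω x := fun x => ι.commutes x
  have h2 : (C (c' ^ w 0) * X 0 ^ w 1 : MvPolynomial (Fin 2) k) = C (c ^ w 1) * X 1 ^ w 0 := by
    apply hι
    rw [map_mul, map_mul, map_pow ι (X 0), map_pow ι (X 1), hC, hC, e0, e1, mul_pow, mul_pow,
      map_pow, map_pow, ← pow_mul, ← pow_mul, mul_comm (w 0)]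
    ring
  have h3 := congrArg (aeval ![(1 : k), 0]) h2
  rw [map_mul, map_mul, map_pow _ (X 0), map_pow _ (X 1), aeval_C, aeval_C, aeval_X, aeval_X] at h3
  simp only [Matrix.cons_val_zero, Matrix.cons_val_one, Matrix.cons_val_fin_one, one_pow, mul_one,
    zero_pow (hw 0).ne', mul_zero, Algebra.algebraMap_self_apply] at h3
  exact pow_ne_zero _ hc' h3

variable (P Q : MvPolynomial (Fin 2) k)

include hι in
/-- If `P`, `Q` are generators of the polynomial ring then there is a parametrization `p` of the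
curve `tp w P = 1` by a line. -/
theorem exists_par (hw : ∀ i, 0 < w i)
    (hgen : ∀ i, ∃ F : MvPolynomial (Fin 2) k, aeval ![P, Q] F = X i)
    (he : 0 < dg w P) (hP : ι (tp w P) = θ ^ dg w P) :
    ∃ p : Fin 2 → Polynomial k, aeval p (tp w P) = 1 ∧
      ∃ G : MvPolynomial (Fin 2) k, aeval p G = Polynomial.X := by
  have hP0 : P ≠ 0 := by
    rintro rfl
    rw [dg, map_zero, Polynomial.natDegree_zero] at he
    exact lt_irrefl _ he
  have hθ : θ ≠ 0 := by
    rintro rfl
    rw [zero_pow he.ne'] at hP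
    exact tp_ne w hP0 (hι (hP.trans (map_zero ι).symm))
  have hXs : ∀ i, ∃ G, st P Q G = X i := fun i => by
    obtain ⟨F, hF⟩ := hgen i
    obtain ⟨G, hG⟩ := st_surj P Q F
    exact ⟨G, hG.trans hF⟩
  -- the polynomial of minimal degree
  let S : Set (Polynomial (Polynomial k)) := {F | st P Q F ≠ 0 ∧ ¬ InD ι w θ (st P Q F)}
  have hS : S.Nonempty := by
    by_contra h
    have h1 : ∀ F, st P Q F ≠ 0 → InD ι w θ (st P Q F) := by
      intro F hF
      by_contra h2
      exact h ⟨F, hF, h2⟩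
    obtain ⟨G0, g0⟩ := hXs 0
    obtain ⟨G1, g1⟩ := hXs 1
    refine not_both ι hι w θ hw ?_ ?_
    · rw [← g0]
      exact h1 _ (by rw [g0]; exact X_ne_zero 0)
    · rw [← g1]
      exact h1 _ (by rw [g1]; exact X_ne_zero 1)
  obtain ⟨F₀, ⟨hb, hbD⟩, hmin⟩ := WellFounded.has_min
    (measure (Polynomial.natDegree (R := Polynomial k))).wf S hS
  have hmin' : ∀ F, st P Q F ≠ 0 → F.natDegree < F₀.natDegree → InD ι w θ (st P Q F) := by
    intro F hF hlt
    by_contra h
    exact hmin F ⟨hF, h⟩ hlt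
  have hm : 0 < F₀.natDegree := by
    rw [Nat.pos_iff_ne_zero]
    intro h0
    have h1 := Polynomial.eq_C_of_natDegree_eq_zero h0
    have hG : F₀.coeff 0 ≠ 0 := by
      intro h2
      rw [h2, Polynomial.C_0] at h1
      exact hb (by rw [h1, map_zero])
    apply hbD
    rw [h1, st_C]
    exact (inD_poly ι w θ P he hP _ hG).2
  obtain ⟨b, hbd⟩ : ∃ b, st P Q F₀ = b := ⟨_, rfl⟩
  rw [hbd] at hb hbD
  obtain ⟨τ, hτd⟩ : ∃ τ, ι (tp w b) / θ ^ dg w b = τ := ⟨_, rfl⟩
  have hτ : ∀ p : Polynomial k, p ≠ 0 → Polynomial.aeval τ p ≠ 0 := by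
    intro p hp h0
    obtain ⟨c, hc⟩ := mem_of_alg τ p hp h0
    apply hbD
    refine ⟨c, ?_, ?_⟩
    · rintro rfl
      rw [map_zero] at hc
      rw [← hc] at hτd
      rcases div_eq_zero_iff.1 hτd with h1 | h1
      · exact tp_ne w hb (hι (h1.trans (map_zero ι).symm))
      · exact pow_ne_zero _ hθ h1
    · rw [hc, ← hτd, div_mul_cancel₀ _ (pow_ne_zero _ hθ)]
  have hτi : ∀ p q : Polynomial k, Polynomial.aeval τ p = Polynomial.aeval τ q → p = q := by
    intro p q h
    by_contra hne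
    refine hτ (p - q) (sub_ne_zero.2 hne) ?_
    rw [map_sub, h, sub_self]
  -- all top forms are polynomials in `τ`
  have key : ∀ F, st P Q F ≠ 0 → ∃ p : Polynomial k, ι (tp w (st P Q F)) =
      θ ^ dg w (st P Q F) * Polynomial.aeval τ p := by
    intro F hF
    obtain ⟨s, c, hc, e⟩ := pdiv F₀ hm _ F le_rfl
    have h1 : (c.map (st P Q)).eval b =
        Polynomial.aeval P (F₀.leadingCoeff ^ s) * st P Q F := by
      rw [← st_C P Q, ← map_mul, ← e, ← hbd, Polynomial.eval_map, Polynomial.eval,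
        Polynomial.hom_eval₂, RingHom.comp_id]
    have hl : F₀.leadingCoeff ≠ 0 := by
      rw [Polynomial.leadingCoeff_ne_zero]
      rintro rfl
      rw [Polynomial.natDegree_zero] at hm
      exact lt_irrefl _ hm
    obtain ⟨h2, κ, hκ, h3⟩ := inD_poly ι w θ P he hP _ (pow_ne_zero s hl)
    have h4 : (c.map (st P Q)).eval b ≠ 0 := by
      rw [h1]
      exact mul_ne_zero h2 hF
    have h5 : c.map (st P Q) ≠ 0 := by
      intro h0
      rw [h0, Polynomial.eval_zero] at h4
      exact h4 rfl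
    obtain ⟨p, hp⟩ := no_cancel ι hι w θ hθ b hb (by rw [hτd]; exact hτ) _ h5 fun i hi => by
      rw [Polynomial.coeff_map] at hi ⊢
      exact hmin' _ hi (hc i)
    rw [hτd, h1, tp_mul, map_mul, h3, dg_mul w h2 hF, pow_add] at hp
    refine ⟨Polynomial.C κ⁻¹ * p, ?_⟩
    have h6 : algebraMap k Ω κ ≠ 0 := (map_ne_zero _).2 hκ
    rw [map_mul, Polynomial.aeval_C, map_inv₀]
    refine mul_left_cancel₀ (mul_ne_zero h6 (pow_ne_zero
      (dg w (Polynomial.aeval P (F₀.leadingCoeff ^ s))) hθ)) ?_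
    rw [hp]
    field_simp
  -- the coordinates
  have hX : ∀ i, ∃ p : Polynomial k, ι (X i) = Polynomial.aeval τ p * θ ^ w i := by
    intro i
    obtain ⟨G, hG⟩ := hXs i
    obtain ⟨p, hp⟩ := key G (by rw [hG]; exact X_ne_zero i)
    rw [hG, (isH_X w i).tp_eq, (isH_X w i).dg_eq w (X_ne_zero i)] at hp
    exact ⟨p, by rw [hp, mul_comm]⟩
  choose p hp using hX
  have hom : ∀ (n : ℕ) (G : MvPolynomial (Fin 2) k), IsH w n G →
      ι G = θ ^ n * Polynomial.aeval τ (aeval p G) := by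
    intro n G hG
    have h1 : ι G = aeval (fun i => ι (X i)) G := by
      rw [← comp_aeval_apply, aeval_X_left_apply]
    rw [h1, comp_aeval_apply, ← hG.aeval_mul]
    congr 2
    exact funext hp
  refine ⟨p, ?_, tp w b, ?_⟩
  · apply hτi
    have h1 := hom _ _ (tp_isH w P)
    rw [hP] at h1
    rw [map_one]
    exact (mul_left_cancel₀ (pow_ne_zero _ hθ) ((mul_one _).trans h1)).symm
  · apply hτi
    have h1 := hom _ _ (tp_isH w b)
    rw [Polynomial.aeval_X]
    rw [h1, mul_div_cancel_left₀ _ (pow_ne_zero _ hθ)] at hτd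
    exact hτd

end Pool.Agent.NegK.JK
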